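import Pool.Agent.Lib.SE.S2.GStmt

/-!
# PROJECT SE, part S2, general signature, (A1): linear algebra (helper94)
-/

set_option autoImplicit false

open Finset

noncomputable section

namespace SE

namespace A1Aux

variable {p q : ℕ}

/-- the matrix `C_(ν,j)` -/
private def Cm (x y F h : Fin p ⊕ Fin q → ℂ) (J : Matrix (Fin p ⊕ Fin q) (Fin p ⊕ Fin q) ℂ) :
    Matrix (Fin q) (Fin q) ℂ :=
  Matrix.of fun ν j => ∑ a, J (Sum.inr ν) a * (F a / h a) * (x a ^ j.1 / y a)

private theorem ent (A B : Matrix (Fin p ⊕ Fin q) (Fin p ⊕ Fin q) ℂ) (d : Fin p ⊕ Fin q → ℂ)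
    (ν ν' : Fin p ⊕ Fin q) :
    (A * Matrix.diagonal d * B) ν ν' = ∑ a, A ν a * d a * B a ν' := by
  rw [Matrix.mul_apply]
  refine Finset.sum_congr rfl fun a _ => ?_
  rw [Matrix.mul_diagonal]

private theorem det_lower (X : Matrix (Fin p ⊕ Fin q) (Fin p ⊕ Fin q) ℂ)
    (h : ∀ i j, X (Sum.inl i) (Sum.inr j) = 0) :
    X.det = X.toBlocks₁₁.det * X.toBlocks₂₂.det := by
  conv_lhs => rw [← Matrix.fromBlocks_toBlocks X]
  have h0 : X.toBlocks₁₂ = 0 := by
    ext i j
    exact h i j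
  rw [h0, Matrix.det_fromBlocks_zero₁₂]

private theorem step1 (x y F h v : Fin p ⊕ Fin q → ℂ)
    (J : Matrix (Fin p ⊕ Fin q) (Fin p ⊕ Fin q) ℂ)
    (hy : ∀ a, y a ≠ 0) (hF : ∀ a, F a ≠ 0) (hv : ∀ ν, v ν ≠ 0)
    (h0 : ∀ e : ℕ, e + 1 < p + q → ∑ a, x a ^ e / h a = 0)
    (h1 : ∀ e : ℕ, e + 1 = p + q → ∑ a, x a ^ e / h a = 1) :
    (M1 x y F v J * Matrix.diagonal (fun a => F a / h a) * MA x y).det *
      (∏ ν : Fin q, v (Sum.inr ν)) = (Cm x y F h J).det := by
  set X := M1 x y F v J * Matrix.diagonal (fun a => F a / h a) * MA x y with hX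
  have key : ∀ a (i e : ℕ), x a ^ i * y a / F a * (F a / h a) * (x a ^ e / y a) =
      x a ^ (i + e) / h a := by
    intro a i e
    have h2 := hy a
    have h3 := hF a
    rw [pow_add]
    field_simp
  have e11 : ∀ i i' : Fin p, X (Sum.inl i) (Sum.inl i') =
      ∑ a, x a ^ (i.1 + (p + q - 1 - i'.1)) / h a := by
    intro i i'
    rw [hX, ent]
    exact Finset.sum_congr rfl fun a _ => key a _ _
  have e12 : ∀ (i : Fin p) (j : Fin q), X (Sum.inl i) (Sum.inr j) = 0 := by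
    intro i j
    have h2 : X (Sum.inl i) (Sum.inr j) = ∑ a, x a ^ (i.1 + j.1) / h a := by
      rw [hX, ent]
      exact Finset.sum_congr rfl fun a _ => key a _ _
    rw [h2]
    exact h0 _ (by have := i.2; have := j.2; omega)
  have e22 : X.toBlocks₂₂ = Matrix.diagonal (fun ν : Fin q => (v (Sum.inr ν))⁻¹) * Cm x y F h J := by
    ext ν j
    rw [Matrix.diagonal_mul]
    have h2 : X.toBlocks₂₂ ν j = ∑ a, J (Sum.inr ν) a / v (Sum.inr ν) * (F a / h a) *
        (x a ^ j.1 / y a) := by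
      change X (Sum.inr ν) (Sum.inr j) = _
      rw [hX, ent]
      rfl
    rw [h2, Cm, Matrix.of_apply, Finset.mul_sum]
    refine Finset.sum_congr rfl fun a _ => ?_
    ring
  have d11 : X.toBlocks₁₁.det = 1 := by
    have h2 : X.toBlocks₁₁.BlockTriangular OrderDual.toDual := by
      intro i i' hlt
      have hlt' : i < i' := hlt
      change X (Sum.inl i) (Sum.inl i') = 0
      rw [e11]
      refine h0 _ ?_
      have h3 := i'.2
      have h4 : i.1 < i'.1 := hlt'
      omega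
    rw [Matrix.det_of_isLowerTriangular _ h2]
    refine Finset.prod_eq_one fun i _ => ?_
    change X (Sum.inl i) (Sum.inl i) = 1
    rw [e11]
    refine h1 _ ?_
    have h3 := i.2
    omega
  rw [det_lower X e12, d11, one_mul, e22, Matrix.det_mul, Matrix.det_diagonal, Finset.prod_inv_distrib]
  have h2 : (∏ ν : Fin q, v (Sum.inr ν)) ≠ 0 := Finset.prod_ne_zero_iff.2 fun ν _ => hv _
  field_simp

private theorem step2 (x y F h v g G : Fin p ⊕ Fin q → ℂ)
    (J : Matrix (Fin p ⊕ Fin q) (Fin p ⊕ Fin q) ℂ)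
    (hJ : ∀ ν ν', ∑ a, J ν a * (F a / h a) * J ν' a = if ν = ν' then -(G ν)⁻¹ else 0) :
    (M2 x y v g J * Matrix.diagonal (fun a => F a / h a) * J.transpose).det =
      (∏ ν : Fin p, -(v (Sum.inl ν) * g (Sum.inl ν) / G (Sum.inl ν))) * (Cm x y F h J).det := by
  set X := M2 x y v g J * Matrix.diagonal (fun a => F a / h a) * J.transpose with hX
  have e1 : ∀ (ν : Fin p) (ν' : Fin p ⊕ Fin q), X (Sum.inl ν) ν' =
      v (Sum.inl ν) * g (Sum.inl ν) * if Sum.inl ν = ν' then -(G (Sum.inl ν))⁻¹ else 0 := by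
    intro ν ν'
    rw [hX, ent, ← hJ, Finset.mul_sum]
    refine Finset.sum_congr rfl fun a _ => ?_
    have h2 : M2 x y v g J (Sum.inl ν) a = v (Sum.inl ν) * g (Sum.inl ν) * J (Sum.inl ν) a := rfl
    rw [h2, Matrix.transpose_apply]
    ring
  have e12 : ∀ (i : Fin p) (j : Fin q), X (Sum.inl i) (Sum.inr j) = 0 := by
    intro i j
    rw [e1, if_neg (by simp), mul_zero]
  have e11 : X.toBlocks₁₁ = Matrix.diagonal
      (fun ν : Fin p => -(v (Sum.inl ν) * g (Sum.inl ν) / G (Sum.inl ν))) := by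
    ext ν ν'
    change X (Sum.inl ν) (Sum.inl ν') = _
    rw [e1, Matrix.diagonal_apply]
    by_cases hh : ν = ν'
    · rw [if_pos hh, if_pos (by rw [hh])]
      ring
    · rw [if_neg hh, if_neg (by simpa using hh), mul_zero]
  have e22 : X.toBlocks₂₂ = (Cm x y F h J).transpose := by
    ext j ν
    change X (Sum.inr j) (Sum.inr ν) = _
    rw [hX, ent, Matrix.transpose_apply, Cm, Matrix.of_apply]
    refine Finset.sum_congr rfl fun a _ => ?_
    have h2 : M2 x y v g J (Sum.inr j) a = x a ^ j.1 / y a := rfl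
    rw [h2, Matrix.transpose_apply]
    ring
  rw [det_lower X e12, e11, e22, Matrix.det_diagonal, Matrix.det_transpose]

end A1Aux

open A1Aux in
/-- (A1) -/
theorem gA1 : S_A1 := by
  intro p q x y F h v g G J hy hF hh hv _ h0 h1 hJ
  have s1 := step1 x y F h v J hy hF hv h0 h1
  have s2 := step2 x y F h v g G J hJ
  rw [Matrix.det_mul, Matrix.det_mul, Matrix.det_diagonal] at s1 s2
  rw [Matrix.det_transpose] at s2
  have hD : (∏ a, F a / h a) ≠ 0 :=
    Finset.prod_ne_zero_iff.2 fun a _ => div_ne_zero (hF a) (hh a)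
  have h3 : (∏ a, F a / h a) * ((M1 x y F v J).det * (MA x y).det * (∏ ν : Fin q, v (Sum.inr ν)) *
      (∏ ν : Fin p, -(v (Sum.inl ν) * g (Sum.inl ν) / G (Sum.inl ν)))) =
      (∏ a, F a / h a) * ((M2 x y v g J).det * J.det) := by
    linear_combination (∏ ν : Fin p, -(v (Sum.inl ν) * g (Sum.inl ν) / G (Sum.inl ν))) * s1 - s2
  exact mul_left_cancel₀ hD h3

end SE
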