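import Pool.Agent.Lib.SE.S2.GStmt

/-!
# PROJECT SE, part S2, general signature: the determinant of `MA` (A1')
-/

set_option autoImplicit false

open Finset

noncomputable section

namespace SE

namespace A1pAux

/-- The exponents of `MA`. -/
def ex (p q : ℕ) : Fin p ⊕ Fin q → Fin (p + q) :=
  Sum.elim (fun i => ⟨p + q - 1 - i.1, by have := i.2; omega⟩) fun j => ⟨j.1, by have := j.2; omega⟩

theorem ex_inj (p q : ℕ) : Function.Injective (ex p q) := by
  rintro (i | i) (j | j) h
  · have h1 : p + q - 1 - i.1 = p + q - 1 - j.1 := congrArg Fin.val h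
    have := i.2
    have := j.2
    exact congrArg Sum.inl (Fin.ext (by omega))
  · have h1 : p + q - 1 - i.1 = j.1 := congrArg Fin.val h
    have := i.2
    have := j.2
    omega
  · have h1 : i.1 = p + q - 1 - j.1 := congrArg Fin.val h
    have := i.2
    have := j.2
    omega
  · have h1 : i.1 = j.1 := congrArg (fun z : Fin (p + q) => z.1) h
    exact congrArg Sum.inr (Fin.ext h1)

/-- The exponents as an equivalence. -/
def eq (p q : ℕ) : Fin p ⊕ Fin q ≃ Fin (p + q) :=
  Equiv.ofBijective (ex p q) ((Fintype.bijective_iff_injective_and_card _).2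
    ⟨ex_inj p q, by simp⟩)

/-- The permutation. -/
def pm (p q : ℕ) : Equiv.Perm (Fin (p + q)) := finSumFinEquiv.symm.trans (eq p q)

theorem MA_eq (p q : ℕ) (x : Fin (p + q) → ℂ) (y : Fin p ⊕ Fin q → ℂ) :
    MA (fun a => x (fs a)) y = Matrix.diagonal (fun a => (y a)⁻¹) *
      ((Matrix.vandermonde x).submatrix id (pm p q)).submatrix (finSumFinEquiv (m := p) (n := q))
        (finSumFinEquiv (m := p) (n := q)) := by
  ext a ν
  rw [Matrix.diagonal_mul, Matrix.submatrix_apply, Matrix.submatrix_apply,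
    Matrix.vandermonde_apply]
  have h1 : pm p q (finSumFinEquiv ν) = ex p q ν := by
    show eq p q (finSumFinEquiv.symm (finSumFinEquiv ν)) = ex p q ν
    rw [Equiv.symm_apply_apply]
    rfl
  rw [h1]
  rcases ν with i | j
  · show x (fs a) ^ (p + q - 1 - i.1) / y a = (y a)⁻¹ * x (fs a) ^ (p + q - 1 - i.1)
    rw [div_eq_mul_inv, mul_comm]
  · show x (fs a) ^ j.1 / y a = (y a)⁻¹ * x (fs a) ^ j.1
    rw [div_eq_mul_inv, mul_comm]

end A1pAux

open A1pAux in
/-- (A1') The determinant of `MA`. -/
theorem gA1' : S_A1' := by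
  intro p q
  refine ⟨((Equiv.Perm.sign (pm p q) : ℤ) : ℂ), ?_, fun x y => ?_⟩
  · rcases Int.units_eq_one_or (Equiv.Perm.sign (pm p q)) with h | h
    · left
      rw [h]
      simp
    · right
      rw [h]
      simp
  · rw [MA_eq, Matrix.det_mul, Matrix.det_diagonal, Matrix.det_submatrix_equiv_self,
      Matrix.det_permute', det_vdm]
    ring

end SE
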