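import Pool.Agent.Lib.SE.S2.GStmt

/-! # SE/S2/G/A2: sums of powers (Lagrange) -/

set_option autoImplicit false

open Finset

noncomputable section

namespace SE

private theorem A2_key (n : ℕ) (x : Fin n → ℂ) (hx : Function.Injective x) (e : ℕ) (he : e < n) :
    ∑ a, x a ^ e / ∏ b ∈ univ.erase a, (x a - x b) =
      (Polynomial.X ^ e : Polynomial ℂ).coeff (n - 1) := by
  have h := Lagrange.coeff_eq_sum (s := (univ : Finset (Fin n))) (v := x) (Set.injOn_of_injective hx)
    (P := (Polynomial.X ^ e : Polynomial ℂ))
    (by rw [Polynomial.degree_X_pow]; simpa using he)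
  simp only [Finset.card_univ, Fintype.card_fin, Polynomial.eval_pow, Polynomial.eval_X] at h
  exact h.symm

theorem gA2 : S_A2 := by
  intro n x hx e
  refine ⟨fun he => ?_, fun he => ?_⟩
  · rw [A2_key n x hx e (by omega), Polynomial.coeff_X_pow, if_neg (by omega)]
  · rw [A2_key n x hx e (by omega), Polynomial.coeff_X_pow, if_pos (by omega)]

end SE
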