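import Pool.Agent.Lib.SE.S2.GStmt

/-! # PROJECT SE, part S2, general signature, module A3: the metric is diagonal in the roots -/

set_option autoImplicit false

open Finset Polynomial

noncomputable section

namespace SE

namespace A3Aux

variable {r : ℕ}

lemma ux_ne {s : Fin (r + 1) → ℂ} (hs : Function.Injective s) {x : Fin r → ℂ}
    (h : ∀ a j, x a ≠ s j) (j : Fin (r + 1)) : ux s x j ≠ 0 := by
  unfold ux
  refine div_ne_zero (prod_ne_zero_iff.2 fun a _ => sub_ne_zero.2 (h a j).symm) (Fd_ne hs j)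

lemma term {s : Fin (r + 1) → ℂ} (hs : Function.Injective s) {x : Fin r → ℂ}
    (h : ∀ a j, x a ≠ s j) (a b : Fin r) (j : Fin (r + 1)) :
    dux s x j a * dux s x j b / ux s x j = dux s x j a / (x b - s j) := by
  rw [dux_eq (h b j)]
  have h1 := ux_ne hs h j
  have h2 : x b - s j ≠ 0 := sub_ne_zero.2 (h b j)
  field_simp

lemma off {s : Fin (r + 1) → ℂ} (hs : Function.Injective s) {x : Fin r → ℂ}
    (hx : Function.Injective x) (h : ∀ a j, x a ≠ s j) (a b : Fin r) (hab : a ≠ b) :
    ∑ j, dux s x j a * dux s x j b / ux s x j = 0 := by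
  have h3 : x b - x a ≠ 0 := sub_ne_zero.2 fun h4 => hab (hx h4).symm
  have key : ∀ j, dux s x j a * dux s x j b / ux s x j =
      (dux s x j a - dux s x j b) / (x b - x a) := by
    intro j
    rw [term hs h, dux_eq (h a j), dux_eq (h b j)]
    have h1 : x a - s j ≠ 0 := sub_ne_zero.2 (h a j)
    have h2 : x b - s j ≠ 0 := sub_ne_zero.2 (h b j)
    field_simp
    ring
  rw [Finset.sum_congr rfl fun j _ => key j, ← Finset.sum_div, Finset.sum_sub_distrib, sum_dux hs,
    sum_dux hs, sub_zero, zero_div]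

lemma diag {s : Fin (r + 1) → ℂ} (hs : Function.Injective s) {x : Fin r → ℂ}
    (h : ∀ a j, x a ≠ s j) (a : Fin r) :
    ∑ j, dux s x j a * dux s x j a / ux s x j =
      -(∏ c ∈ univ.erase a, (x a - x c)) / ∏ j, (x a - s j) := by
  have hm : ∀ b ∈ univ.erase a, (X - C (x b) : ℂ[X]).Monic := fun b _ => monic_X_sub_C _
  have hmon : (∏ b ∈ univ.erase a, (X - C (x b) : ℂ[X])).Monic := monic_prod_of_monic _ _ hm
  have hr : 0 < r := lt_of_le_of_lt (Nat.zero_le _) a.2
  have hnd : (∏ b ∈ univ.erase a, (X - C (x b) : ℂ[X])).natDegree = r - 1 := by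
    rw [natDegree_prod_of_monic _ _ hm]
    simp [card_erase_of_mem]
  have hdeg : (∏ b ∈ univ.erase a, (X - C (x b) : ℂ[X])).degree <
      ((univ : Finset (Fin (r + 1))).card : WithBot ℕ) := by
    rw [degree_eq_natDegree hmon.ne_zero, hnd, card_univ, Fintype.card_fin]
    exact_mod_cast (by omega : r - 1 < r + 1)
  set g : ℂ[X] := ∏ b ∈ univ.erase a, (X - C (x b) : ℂ[X]) with hg
  have h1 := Lagrange.eq_interpolate (s := (univ : Finset (Fin (r + 1)))) (v := s) hs.injOn hdeg
  have h2 := Lagrange.eval_interpolate_not_at_node (s := (univ : Finset (Fin (r + 1)))) (v := s)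
    (fun i => g.eval (s i)) (x := x a) (fun i _ => h a i)
  rw [← h1, Lagrange.eval_nodal] at h2
  have hF : ∏ j, (x a - s j) ≠ 0 := prod_ne_zero_iff.2 fun j _ => sub_ne_zero.2 (h a j)
  have hgx : g.eval (x a) = ∏ c ∈ univ.erase a, (x a - x c) := by
    rw [hg, eval_prod]
    simp
  have key : ∀ j, dux s x j a * dux s x j a / ux s x j =
      -(Lagrange.nodalWeight univ s j * (x a - s j)⁻¹ * g.eval (s j)) := by
    intro j
    have hgs : g.eval (s j) = ∏ c ∈ univ.erase a, (s j - x c) := by
      rw [hg, eval_prod]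
      simp
    rw [term hs h, hgs, Lagrange.nodalWeight, Finset.prod_inv_distrib]
    unfold dux Fd
    rw [div_eq_mul_inv, div_eq_mul_inv]
    ring
  rw [Finset.sum_congr rfl fun j _ => key j, Finset.sum_neg_distrib, neg_div, ← hgx, h2,
    mul_div_cancel_left₀ _ hF]

end A3Aux

theorem gA3 : S_A3 := by
  intro r s x hs hx h a b
  by_cases hab : a = b
  · subst hab
    rw [if_pos rfl]
    exact A3Aux.diag hs h a
  · rw [if_neg hab]
    exact A3Aux.off hs hx h a b hab

end SE
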