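import Pool.Agent.Lib.SE.S2.GStmt

/-! # PROJECT SE, part S2, general signature, module A4: orthogonality of `J` -/

set_option autoImplicit false

open Finset

noncomputable section

namespace SE

theorem gA4 (h1 : S_T1) (h3 : S_A3) : S_A4 := by
  intro p q τ eL eN s hs x hx ν ν'
  obtain ⟨hxi, hxs, hok⟩ := hx
  set u : τ.L → ℂ := fun l => ux s x (eL.symm l) with hu
  set J := JJ τ eL eN s x with hJ
  set G : Fin p ⊕ Fin q → ℂ := fun ν => τ.wt u (eN ν) ^ 3 /
    ((τ.lr u (eN ν)).1 * (τ.lr u (eN ν)).2) with hG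
  have hG0 : ∀ ν, G ν ≠ 0 := by
    intro ν
    obtain ⟨h4, h5, h6⟩ := hok.2.2 (eN ν)
    exact div_ne_zero (pow_ne_zero _ h6) (mul_ne_zero h4 h5)
  have hF0 : ∀ a : Fin p ⊕ Fin q, (∏ j, (x (fs a) - s j)) ≠ 0 := by
    intro a
    exact Finset.prod_ne_zero_iff.2 fun j _ => sub_ne_zero.2 (hxs (fs a) j)
  have hh0 : ∀ a : Fin p ⊕ Fin q, (∏ b ∈ univ.erase (fs a), (x (fs a) - x b)) ≠ 0 := by
    intro a
    refine Finset.prod_ne_zero_iff.2 fun b hb => sub_ne_zero.2 fun h => ?_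
    exact (Finset.mem_erase.1 hb).1 (hxi h).symm
  have hsum : ∀ a : Fin p ⊕ Fin q, ∑ l, dux s x (eL.symm l) (fs a) = 0 := by
    intro a
    rw [← sum_dux hs x (fs a)]
    exact Equiv.sum_comp eL.symm (fun j => dux s x j (fs a))
  have key : ∀ a b : Fin p ⊕ Fin q, ∑ ν, G ν * (J ν a * J ν b) =
      if a = b then -(∏ c ∈ univ.erase (fs a), (x (fs a) - x c)) / ∏ j, (x (fs a) - s j)
        else 0 := by
    intro a b
    have h4 := h1 τ u (fun l => dux s x (eL.symm l) (fs a)) (fun l => dux s x (eL.symm l) (fs b)) hok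
    rw [hsum a, zero_mul, zero_div, zero_add] at h4
    have h5 : ∑ l, dux s x (eL.symm l) (fs a) * dux s x (eL.symm l) (fs b) / u l =
        ∑ j, dux s x j (fs a) * dux s x j (fs b) / ux s x j :=
      Equiv.sum_comp eL.symm (fun j => dux s x j (fs a) * dux s x j (fs b) / ux s x j)
    rw [h5, h3 (p + q) s x hs hxi hxs (fs a) (fs b)] at h4
    have h6 : ∑ ν, G ν * (J ν a * J ν b) = ∑ ν : τ.N, τ.wt u ν ^ 3 /
        ((τ.lr u ν).1 * (τ.lr u ν).2) * (τ.dt u (fun l => dux s x (eL.symm l) (fs a)) ν *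
          τ.dt u (fun l => dux s x (eL.symm l) (fs b)) ν) :=
      Equiv.sum_comp eN (fun ν : τ.N => τ.wt u ν ^ 3 /
        ((τ.lr u ν).1 * (τ.lr u ν).2) * (τ.dt u (fun l => dux s x (eL.symm l) (fs a)) ν *
          τ.dt u (fun l => dux s x (eL.symm l) (fs b)) ν))
    rw [h6, ← h4]
    by_cases hab : a = b
    · rw [if_pos hab, if_pos (by rw [hab])]
    · rw [if_neg hab, if_neg fun h => hab (finSumFinEquiv.injective h)]
  set B : Matrix (Fin p ⊕ Fin q) (Fin p ⊕ Fin q) ℂ := Matrix.of fun a ν =>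
    -((∏ j, (x (fs a) - s j)) / ∏ b ∈ univ.erase (fs a), (x (fs a) - x b)) * J ν a * G ν with hB
  have hBJ : B * J = 1 := by
    ext a b
    rw [Matrix.mul_apply, Matrix.one_apply]
    have h4 : ∀ ν, B a ν * J ν b =
        -((∏ j, (x (fs a) - s j)) / ∏ b ∈ univ.erase (fs a), (x (fs a) - x b)) *
          (G ν * (J ν a * J ν b)) := by
      intro ν
      rw [hB, Matrix.of_apply]
      ring
    rw [Finset.sum_congr rfl fun ν _ => h4 ν, ← Finset.mul_sum, key a b]
    by_cases hab : a = b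
    · rw [if_pos hab, if_pos hab]
      have h5 := hF0 a
      have h6 := hh0 a
      field_simp
    · rw [if_neg hab, if_neg hab, mul_zero]
  have hJB : J * B = 1 := mul_eq_one_comm.1 hBJ
  have h7 := congrFun (congrFun hJB ν) ν'
  rw [Matrix.mul_apply, Matrix.one_apply] at h7
  have h8 : ∀ a, J ν a * B a ν' = -(G ν') * (J ν a *
      ((∏ j, (x (fs a) - s j)) / ∏ b ∈ univ.erase (fs a), (x (fs a) - x b)) * J ν' a) := by
    intro a
    rw [hB, Matrix.of_apply]
    ring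
  rw [Finset.sum_congr rfl fun a _ => h8 a, ← Finset.mul_sum] at h7
  have h9 : ∑ a, J ν a * ((∏ j, (x (fs a) - s j)) / ∏ b ∈ univ.erase (fs a), (x (fs a) - x b)) *
      J ν' a = if ν = ν' then -(G ν)⁻¹ else 0 := by
    by_cases hν : ν = ν'
    · rw [if_pos hν] at h7 ⊢
      subst hν
      have h10 := hG0 ν
      rw [neg_mul, neg_eq_iff_eq_neg] at h7
      have h11 : (G ν)⁻¹ * (G ν * _) = (G ν)⁻¹ * (-1) := congrArg (fun z => (G ν)⁻¹ * z) h7
      rw [inv_mul_cancel_left₀ h10, mul_neg, mul_one] at h11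
      exact h11
    · rw [if_neg hν] at h7 ⊢
      exact (mul_eq_zero.1 h7).resolve_left (neg_ne_zero.2 (hG0 ν'))
  exact h9

end SE
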