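import Pool.Agent.Lib.SE.S2.GStmt

/-!
# PROJECT SE, part S2, general signature: (A5) the determinant of `J` (helper50)
-/

set_option autoImplicit false

open Finset

noncomputable section

namespace SE

namespace A5Aux

/-- The determinant of `∂u_j / ∂x_a`, `j < r`. -/
theorem det_dux {r : ℕ} {s : Fin (r + 1) → ℂ} {x : Fin r → ℂ}
    (hx : ∀ a j, x a ≠ s j) :
    (Matrix.of fun j a : Fin r => dux s x j.castSucc a).det =
      (∏ j : Fin r, ((-1) ^ r / Fd s j.castSucc)) *
        (sgn ℂ r * vdm fun j : Fin r => s j.castSucc) * vdm x := by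
  have h3 : (Matrix.of fun j a : Fin r => dux s x j.castSucc a) =
      Matrix.diagonal (fun j : Fin r => ux s x j.castSucc) *
        (Matrix.of fun j a : Fin r => 1 / (x a - s j.castSucc)) := by
    ext j a
    rw [Matrix.diagonal_mul, Matrix.of_apply, Matrix.of_apply, dux_eq (hx a _)]
  have h4 := det_cauchy (fun j : Fin r => s j.castSucc) x (fun a j => hx a _)
  rw [h3, Matrix.det_mul, Matrix.det_diagonal, h4]
  have h5 : ∀ j : Fin r, ux s x j.castSucc =
      ((-1) ^ r / Fd s j.castSucc) * ∏ a, (x a - s j.castSucc) := by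
    intro j
    unfold ux
    have h : ∀ a, s j.castSucc - x a = (-1) * (x a - s j.castSucc) := fun a => by ring
    rw [prod_congr rfl fun a _ => h a, prod_mul_distrib]
    simp only [prod_const, card_univ, Fintype.card_fin]
    ring
  have h6 : ∏ j : Fin r, ∏ a, (x a - s j.castSucc) = ∏ a, ∏ j : Fin r, (x a - s j.castSucc) :=
    prod_comm
  rw [prod_congr rfl fun j _ => h5 j, prod_mul_distrib, h6]
  have hG : ∏ a, ∏ j : Fin r, (x a - s j.castSucc) ≠ 0 :=
    prod_ne_zero_iff.2 fun a _ => prod_ne_zero_iff.2 fun j _ => sub_ne_zero.2 (hx a _)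
  field_simp

end A5Aux

theorem gA5 (h3 : S_T3) : S_A5 := by
  intro p q τ eL eN s hs
  obtain ⟨ε, hε, H⟩ := h3 (p + q) τ eL (finSumFinEquiv.symm.trans eN)
  refine ⟨ε * ((∏ j : Fin (p + q), ((-1) ^ (p + q) / Fd s j.castSucc)) *
    (sgn ℂ (p + q) * vdm fun j : Fin (p + q) => s j.castSucc)), ?_, ?_⟩
  · refine mul_ne_zero ?_ (mul_ne_zero ?_ (mul_ne_zero (sgn_ne _) (vdm_ne fun _ _ h =>
      Fin.castSucc_injective _ (hs h))))
    · rcases hε with rfl | rfl
      · exact one_ne_zero
      · exact neg_ne_zero.2 one_ne_zero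
    · exact prod_ne_zero_iff.2 fun j _ => div_ne_zero (pow_ne_zero _ (by norm_num)) (Fd_ne hs _)
  · rintro x ⟨_, hx, hOk⟩
    have e1 := H (fun l => ux s x (eL.symm l)) (fun a l => dux s x (eL.symm l) a) hOk
      (fun a => by
        rw [← sum_dux hs x a]
        exact Equiv.sum_comp eL.symm fun j => dux s x j a)
    have e2 : (Matrix.of fun j a : Fin (p + q) =>
        (fun (a : Fin (p + q)) (l : τ.L) => dux s x (eL.symm l) a) a (eL j.castSucc)) =
        Matrix.of fun j a : Fin (p + q) => dux s x j.castSucc a := by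
      ext j a
      simp only [Matrix.of_apply, Equiv.symm_apply_apply]
    rw [e2, A5Aux.det_dux hx] at e1
    have e3 : JJ τ eL eN s x = (Matrix.of fun i a : Fin (p + q) =>
        τ.dt (fun l => ux s x (eL.symm l)) ((fun (a : Fin (p + q)) (l : τ.L) =>
          dux s x (eL.symm l) a) a) ((finSumFinEquiv.symm.trans eN) i)).submatrix
        finSumFinEquiv finSumFinEquiv := by
      ext ν a
      simp only [JJ, Matrix.submatrix_apply, Matrix.of_apply, Equiv.trans_apply,
        Equiv.symm_apply_apply]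
    rw [e3, Matrix.det_submatrix_equiv_self, e1]
    ring

end SE
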