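import Pool.Agent.Lib.SE.S2.GStmt

/-!
# PROJECT SE, part S2, general signature: the determinant identity (assembly)
-/

set_option autoImplicit false

open Finset

noncomputable section

namespace SE

namespace GAux

variable {p q : ℕ}

theorem sum_fs (f : Fin (p + q) → ℂ) : ∑ a : Fin p ⊕ Fin q, f (fs a) = ∑ a, f a :=
  Equiv.sum_comp finSumFinEquiv f

theorem vdmn {r : ℕ} (x : Fin r → ℂ) (hx : Function.Injective x) : vdm x ≠ 0 := by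
  unfold vdm
  refine Finset.prod_ne_zero_iff.2 fun i _ => Finset.prod_ne_zero_iff.2 fun j hj => ?_
  have h1 : i < j := Finset.mem_Ioi.1 hj
  exact sub_ne_zero.2 fun h => h1.ne (hx h.symm)

theorem fin_alg (D1 D2 ε V Yi Y vP vQ WP WQ C s : ℂ) (hε : ε * ε = 1) (hs : s * s = 1) (hV : V ≠ 0)
    (hY : Yi * Y = 1) (hWP : WP ≠ 0) (hWQ : WQ ≠ 0)
    (h : D1 * (ε * V * Yi) * vQ * (s * vP * WP⁻¹) = D2 * (C * V * (WP⁻¹ * WQ⁻¹))) :
    D1 * (vP * vQ) * WQ = (C * ε * s) * Y * D2 := by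
  have h1 : D1 * ε * Yi * vQ * s * vP = D2 * C * WQ⁻¹ := by
    have h2 : V * WP⁻¹ ≠ 0 := mul_ne_zero hV (inv_ne_zero hWP)
    refine mul_right_cancel₀ h2 ?_
    calc D1 * ε * Yi * vQ * s * vP * (V * WP⁻¹) = D1 * (ε * V * Yi) * vQ * (s * vP * WP⁻¹) := by ring
      _ = D2 * (C * V * (WP⁻¹ * WQ⁻¹)) := h
      _ = D2 * C * WQ⁻¹ * (V * WP⁻¹) := by ring
  have h3 : D1 * (vP * vQ) * WQ = (D1 * ε * Yi * vQ * s * vP) * (ε * s * Y) * WQ := by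
    calc D1 * (vP * vQ) * WQ = D1 * (vP * vQ) * WQ * ((ε * ε) * (s * s) * (Yi * Y)) := by
          rw [hε, hs, hY, mul_one, mul_one, mul_one]
      _ = (D1 * ε * Yi * vQ * s * vP) * (ε * s * Y) * WQ := by ring
  rw [h3, h1]
  calc D2 * C * WQ⁻¹ * (ε * s * Y) * WQ = D2 * C * (ε * s * Y) * (WQ⁻¹ * WQ) := by ring
    _ = (C * ε * s) * Y * D2 := by rw [inv_mul_cancel₀ hWQ]; ring

/-- `g / G = 1 / W` -/
theorem one_node (a b v : ℂ) (ha : a ≠ 0) (hb : b ≠ 0) (hab : a + b ≠ 0) :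
    -(v * (1 / (a / (a + b) * (1 - a / (a + b)))) / ((a + b) ^ 3 / (a * b))) =
      (-1) * v * (a + b)⁻¹ := by
  have e1 : 1 - a / (a + b) = b / (a + b) := by
    rw [eq_div_iff hab, sub_mul, div_mul_cancel₀ _ hab, one_mul, add_sub_cancel_left]
  rw [e1]
  field_simp

/-- the assembly for given numbers -/
theorem asm (h1 : S_A1) (ε C : ℂ) (hεε : ε * ε = 1) (x y F h v g G A B : Fin p ⊕ Fin q → ℂ) (V : ℂ)
    (J : Matrix (Fin p ⊕ Fin q) (Fin p ⊕ Fin q) ℂ)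
    (hy : ∀ a, y a ≠ 0) (hF : ∀ a, F a ≠ 0) (hh : ∀ a, h a ≠ 0) (hv : ∀ ν, v ν ≠ 0)
    (hs0 : ∀ e : ℕ, e + 1 < p + q → ∑ a, x a ^ e / h a = 0)
    (hs1 : ∀ e : ℕ, e + 1 = p + q → ∑ a, x a ^ e / h a = 1)
    (hJ : ∀ ν ν', ∑ a, J ν a * (F a / h a) * J ν' a = if ν = ν' then -(G ν)⁻¹ else 0)
    (hA : ∀ ν, A ν ≠ 0) (hB : ∀ ν, B ν ≠ 0) (hAB : ∀ ν, A ν + B ν ≠ 0)
    (hg : ∀ ν, g ν = 1 / (A ν / (A ν + B ν) * (1 - A ν / (A ν + B ν))))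
    (hG : ∀ ν, G ν = (A ν + B ν) ^ 3 / (A ν * B ν)) (hV : V ≠ 0)
    (hMA : (MA x y).det = ε * V * ∏ a, (y a)⁻¹)
    (hdJ : J.det = C * V * ∏ ν, (A ν + B ν)⁻¹) :
    (M1 x y F v J).det * (∏ ν, v ν) * (∏ ν : Fin q, (A (Sum.inr ν) + B (Sum.inr ν))) =
      (C * ε * (-1) ^ p) * (∏ a, y a) * (M2 x y v g J).det := by
  have hss : ((-1 : ℂ) ^ p) * (-1) ^ p = 1 := by rw [← mul_pow]; simp
  have hG0 : ∀ ν, G ν ≠ 0 := fun ν => by
    rw [hG]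
    exact div_ne_zero (pow_ne_zero _ (hAB _)) (mul_ne_zero (hA _) (hB _))
  have key := h1 p q x y F h v g G J hy hF hh hv hG0 hs0 hs1 hJ
  have hN : ∏ ν, (A ν + B ν)⁻¹ = (∏ ν : Fin p, (A (Sum.inl ν) + B (Sum.inl ν)))⁻¹ *
      (∏ ν : Fin q, (A (Sum.inr ν) + B (Sum.inr ν)))⁻¹ := by
    rw [Fintype.prod_sum_type, Finset.prod_inv_distrib, Finset.prod_inv_distrib]
  rw [hMA, hdJ, hN] at key
  have hgG : ∀ ν : Fin p, -(v (Sum.inl ν) * g (Sum.inl ν) / G (Sum.inl ν)) =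
      (-1) * v (Sum.inl ν) * (A (Sum.inl ν) + B (Sum.inl ν))⁻¹ := by
    intro ν
    rw [hg, hG]
    exact one_node _ _ _ (hA _) (hB _) (hAB _)
  rw [Finset.prod_congr rfl fun ν _ => hgG ν, Finset.prod_mul_distrib, Finset.prod_mul_distrib,
    Finset.prod_const, Finset.card_univ, Fintype.card_fin, Finset.prod_inv_distrib,
    Finset.prod_inv_distrib] at key
  have hvv : ∏ ν, v ν = (∏ ν : Fin p, v (Sum.inl ν)) * ∏ ν : Fin q, v (Sum.inr ν) :=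
    Fintype.prod_sum_type _
  rw [hvv]
  have hYi : (∏ a, y a)⁻¹ * ∏ a, y a = 1 :=
    inv_mul_cancel₀ (Finset.prod_ne_zero_iff.2 fun a _ => hy a)
  exact fin_alg _ _ ε V (∏ a, y a)⁻¹ (∏ a, y a) _ _ _ _ C _ hεε hss hV hYi
    (Finset.prod_ne_zero_iff.2 fun ν _ => hAB _) (Finset.prod_ne_zero_iff.2 fun ν _ => hAB _) key

end GAux

open GAux in
theorem gG (h1 : S_A1) (h1' : S_A1') (h2 : S_A2) (h4 : S_A4) (h5 : S_A5) : S_G := by
  intro p q τ eL eN s hs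
  obtain ⟨ε, hε, hMA⟩ := h1' p q
  obtain ⟨C, hC, hJ⟩ := h5 p q τ eL eN s hs
  have hεε : ε * ε = 1 := by rcases hε with rfl | rfl <;> ring
  have hε0 : ε ≠ 0 := fun h => by rw [h, zero_mul] at hεε; exact zero_ne_one hεε
  refine ⟨C * ε * (-1) ^ p, mul_ne_zero (mul_ne_zero hC hε0) (pow_ne_zero _ (by norm_num)), ?_⟩
  intro x hx y v hy hv
  have hx2 : τ.Ok fun l => ux s x (eL.symm l) := hx.2.2
  refine asm h1 ε C hεε (fun a => x (fs a)) y (fun a => ∏ j, (x (fs a) - s j))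
    (fun a => ∏ b ∈ univ.erase (fs a), (x (fs a) - x b)) v (gg τ eL eN s x)
    (fun ν => τ.wt (fun l => ux s x (eL.symm l)) (eN ν) ^ 3 /
        ((τ.lr (fun l => ux s x (eL.symm l)) (eN ν)).1 *
          (τ.lr (fun l => ux s x (eL.symm l)) (eN ν)).2))
    (fun ν => (τ.lr (fun l => ux s x (eL.symm l)) (eN ν)).1)
    (fun ν => (τ.lr (fun l => ux s x (eL.symm l)) (eN ν)).2) (vdm x)
    (JJ τ eL eN s x) hy ?_ ?_ hv ?_ ?_ (fun ν ν' => h4 p q τ eL eN s hs x hx ν ν')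
    (fun ν => (hx2.2.2 _).1) (fun ν => (hx2.2.2 _).2.1) (fun ν => (hx2.2.2 _).2.2)
    (fun ν => rfl) (fun ν => rfl) (vdmn x hx.1) (hMA x y) ?_
  · exact fun a => Finset.prod_ne_zero_iff.2 fun j _ => sub_ne_zero.2 (hx.2.1 _ _)
  · exact fun a => Finset.prod_ne_zero_iff.2 fun b hb =>
      sub_ne_zero.2 fun h => (Finset.mem_erase.1 hb).1 (hx.1 h).symm
  · intro e he
    rw [sum_fs (fun a => x a ^ e / ∏ b ∈ univ.erase a, (x a - x b))]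
    exact (h2 _ x hx.1 e).1 he
  · intro e he
    rw [sum_fs (fun a => x a ^ e / ∏ b ∈ univ.erase a, (x a - x b))]
    exact (h2 _ x hx.1 e).2 he
  · rw [hJ x hx]
    congr 1
    rw [← Equiv.prod_comp eN]
    rfl

end SE
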