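import Pool.Agent.Lib.SE.S2.GStmt

/-!
# PROJECT SE, part S2, general signature: module G1 (helper52)
-/

set_option autoImplicit false

open Finset

noncomputable section

namespace SE

namespace G1Aux

/-- the sum of the integer parts of `a / m` and `- a / m` -/
theorem floor_add (m : ℕ) (hm : 0 < m) (σ b : ℤ) (h : ¬ (m : ℤ) ∣ σ * b) :
    -(-σ * b / m) + -(σ * b / m) = 1 := by
  have hm' : (0 : ℤ) < m := by exact_mod_cast hm
  have h1 : -σ * b = -(σ * b) := by ring
  rw [h1]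
  generalize σ * b = a at h
  have e1 := Int.mul_ediv_add_emod a m
  have e2 := Int.mul_ediv_add_emod (-a) m
  have r1 := Int.emod_nonneg a hm'.ne'
  have r2 := Int.emod_lt_of_pos a hm'
  have r3 := Int.emod_nonneg (-a) hm'.ne'
  have r4 := Int.emod_lt_of_pos (-a) hm'
  have r5 : a % m ≠ 0 := fun h0 => h (Int.dvd_of_emod_eq_zero h0)
  have r6 : (-a) % m ≠ 0 := fun h0 => h (by
    have := Int.dvd_of_emod_eq_zero h0
    rwa [dvd_neg] at this)
  have s1 : 0 < a % m := lt_of_le_of_ne r1 (Ne.symm r5)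
  have s2 : 0 < (-a) % m := lt_of_le_of_ne r3 (Ne.symm r6)
  have s3 : (m : ℤ) * (a / m + -a / m) = -(a % m + -a % m) := by linarith
  have s4 : a / m + -a / m < 0 := by
    by_contra hc
    push Not at hc
    have : 0 ≤ (m : ℤ) * (a / m + -a / m) := mul_nonneg hm'.le hc
    linarith
  have s5 : -2 < a / m + -a / m := by
    by_contra hc
    push Not at hc
    have : (m : ℤ) * (a / m + -a / m) ≤ m * (-2) := mul_le_mul_of_nonneg_left hc hm'.le
    linarith
  linarith [show a / m + -a / m = -1 by omega]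

theorem zpow_mul_one {z : ℂ} (hz : z ≠ 0) (i j : ℤ) (h : i + j = 1) : z ^ i * z ^ j = z := by
  rw [← zpow_add₀ hz, h, zpow_one]

end G1Aux

open G1Aux in
theorem gG1 : S_G1 := by
  refine ⟨?_, ?_⟩
  · intro k m s b σ x y hm hy hx hb
    unfold ysg
    have h1 : y ^ (-σ) * y ^ σ = 1 := by
      rw [← zpow_add₀ hy, neg_add_cancel, zpow_zero]
    have h2 : (∏ j, (x - s j) ^ (-(-σ * b j / m))) * ∏ j, (x - s j) ^ (-(σ * b j / m)) =
        ∏ j, (x - s j) := by
      rw [← Finset.prod_mul_distrib]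
      refine Finset.prod_congr rfl fun j _ => ?_
      exact zpow_mul_one (sub_ne_zero.2 (hx j)) _ _ (floor_add m hm σ (b j) (hb j))
    calc y ^ (-σ) * (∏ j, (x - s j) ^ (-(-σ * b j / m))) *
        (y ^ σ * ∏ j, (x - s j) ^ (-(σ * b j / m))) =
        (y ^ (-σ) * y ^ σ) * ((∏ j, (x - s j) ^ (-(-σ * b j / m))) *
          ∏ j, (x - s j) ^ (-(σ * b j / m))) := by ring
      _ = ∏ j, (x - s j) := by rw [h1, h2, one_mul]
  · intro m c d σ t v hm hv ht ht1 hc hd
    unfold vsg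
    have h1 : v ^ (-σ) * v ^ σ = 1 := by
      rw [← zpow_add₀ hv, neg_add_cancel, zpow_zero]
    have h2 := zpow_mul_one ht _ _ (floor_add m hm σ c hc)
    have h3 := zpow_mul_one (sub_ne_zero.2 (Ne.symm ht1)) _ _ (floor_add m hm σ d hd)
    calc v ^ (-σ) * (t ^ (-(-σ * c / m)) * (1 - t) ^ (-(-σ * d / m))) *
        (v ^ σ * (t ^ (-(σ * c / m)) * (1 - t) ^ (-(σ * d / m)))) =
        (v ^ (-σ) * v ^ σ) * (t ^ (-(-σ * c / m)) * t ^ (-(σ * c / m))) *
          ((1 - t) ^ (-(-σ * d / m)) * (1 - t) ^ (-(σ * d / m))) := by ring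
      _ = t * (1 - t) := by rw [h1, h2, h3, one_mul]

end SE
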