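import Pool.Agent.Lib.SE.S2.GStmt

/-!
# PROJECT SE, part S2, general signature, (G2): the relation between the `y_σ` and the `v_σ`
-/

set_option autoImplicit false

open Finset

noncomputable section

namespace SE

namespace G2Aux

private theorem sum_rel {ι : Type} [Fintype ι] (m : ℕ) (σ : ℤ) (b : ι → ℤ) (n : ι → ℕ)
    (h : ∀ l, (n l : ℤ) = σ * b l % m) :
    σ * ∑ j, b j = ((∑ j, n j : ℕ) : ℤ) + m * -(∑ j, -(σ * b j / m)) := by
  push_cast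
  rw [Finset.sum_neg_distrib, neg_neg, Finset.mul_sum, Finset.mul_sum, ← Finset.sum_add_distrib]
  refine Finset.sum_congr rfl fun j _ => ?_
  rw [h j]
  exact (Int.emod_add_mul_ediv (σ * b j) m).symm

private theorem lr_rel (m : ℕ) (σ : ℤ) : ∀ (τ : Tr) (b : τ.L → ℤ) (n : τ.L → ℕ),
    (∀ l, (n l : ℤ) = σ * b l % m) → ∀ ν : τ.N,
    σ * (τ.lr b ν).1 = (((τ.lr n ν).1 : ℕ) : ℤ) + m * -(τ.lr (fun l => -(σ * b l / m)) ν).1 ∧
    σ * (τ.lr b ν).2 = (((τ.lr n ν).2 : ℕ) : ℤ) + m * -(τ.lr (fun l => -(σ * b l / m)) ν).2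
  | Tr.lf, _, _, _, ν => Empty.elim ν
  | Tr.nd _ _, b, n, h, none =>
      ⟨sum_rel m σ (fun j => b (Sum.inl j)) (fun j => n (Sum.inl j)) fun l => h (Sum.inl l),
       sum_rel m σ (fun j => b (Sum.inr j)) (fun j => n (Sum.inr j)) fun l => h (Sum.inr l)⟩
  | Tr.nd l _, b, n, h, some (Sum.inl ν) =>
      lr_rel m σ l (fun j => b (Sum.inl j)) (fun j => n (Sum.inl j)) (fun j => h (Sum.inl j)) ν
  | Tr.nd _ r, b, n, h, some (Sum.inr ν) =>
      lr_rel m σ r (fun j => b (Sum.inr j)) (fun j => n (Sum.inr j)) (fun j => h (Sum.inr j)) ν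

private theorem div_rel {m : ℕ} (hm : 0 < m) {A B : ℤ} {n : ℕ} (h : A = (n : ℤ) + m * -B) :
    -(A / m) = B - ((n / m : ℕ) : ℤ) ∧ A % m = ((n % m : ℕ) : ℤ) := by
  have hm' : (m : ℤ) ≠ 0 := by exact_mod_cast hm.ne'
  constructor
  · rw [h, Int.add_mul_ediv_left _ _ hm']
    push_cast
    ring
  · rw [h, Int.add_mul_emod_self_left]
    push_cast
    rfl

end G2Aux

open G2Aux in
theorem gG2 (h4 : S_T4) (h5 : S_T5) : S_G2 := by
  intro r m τ eL s b σ hm hs x hx hOk y v κ hy hv hκ hyv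
  set u : τ.L → ℂ := fun l => ux s x (eL.symm l) with hu
  set b' : τ.L → ℤ := fun l => b (eL.symm l) with hb'
  set n : τ.L → ℕ := fun l => (σ * b' l % m).toNat with hn
  have hm' : (m : ℤ) ≠ 0 := by exact_mod_cast hm.ne'
  have hnz : ∀ l, (n l : ℤ) = σ * b' l % m := fun l =>
    Int.toNat_of_nonneg (Int.emod_nonneg _ hm')
  have hnm : ∀ l, n l < m := by
    intro l
    have h1 : (n l : ℤ) < m := by
      rw [hnz l]
      exact Int.emod_lt_of_pos _ (by exact_mod_cast hm)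
    exact_mod_cast h1
  have hsum : ∑ l, u l = 1 := by
    rw [hu, Equiv.sum_comp eL.symm (fun j => ux s x j)]
    exact sum_ux hs x
  have ht : ∀ ν, τ.tt u ν ≠ 0 := fun ν => div_ne_zero (hOk.2.2 ν).1 (hOk.2.2 ν).2.2
  have ht1 : ∀ ν, 1 - τ.tt u ν ≠ 0 := by
    intro ν
    have hW := (hOk.2.2 ν).2.2
    have e : 1 - τ.tt u ν = (τ.lr u ν).2 / τ.wt u ν := by
      rw [Tr.tt, eq_div_iff hW, sub_mul, one_mul, div_mul_cancel₀ _ hW, Tr.wt]
      ring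
    rw [e]
    exact div_ne_zero (hOk.2.2 ν).2.1 hW
  -- (T4), (T5)
  have e4 := h4 τ u (fun l => -(σ * b' l / m)) hOk
  have e5 := h5 τ u n m hm hnm hOk
  rw [hsum, one_zpow, one_mul] at e4
  rw [hsum, one_pow, one_mul] at e5
  -- the left side
  have hL : ∏ a, ysg m s b σ (x a) (y a) =
      (κ * ∏ ν, v ν) ^ σ * ((∏ j, ((-1) ^ r * Fd s j) ^ (-(σ * b j / m))) *
        ∏ l, u l ^ (-(σ * b' l / m))) := by
    have h1 : ∏ l, u l ^ (-(σ * b' l / m)) = ∏ j, ux s x j ^ (-(σ * b j / m)) := by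
      rw [hu, hb']
      exact Equiv.prod_comp eL.symm (fun j => ux s x j ^ (-(σ * b j / (m : ℤ))))
    rw [h1, ← Finset.prod_mul_distrib]
    unfold ysg
    rw [Finset.prod_mul_distrib, Finset.prod_zpow, hyv, Finset.prod_comm]
    congr 1
    refine Finset.prod_congr rfl fun j _ => ?_
    rw [Finset.prod_zpow, ← mul_zpow]
    congr 1
    unfold ux
    rw [mul_assoc, mul_div_cancel₀ _ (Fd_ne hs j)]
    have e : (-1 : ℂ) ^ r = ∏ _a : Fin r, (-1 : ℂ) := by simp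
    rw [e, ← Finset.prod_mul_distrib]
    refine Finset.prod_congr rfl fun a _ => ?_
    ring
  rw [hL, e4, mul_zpow]
  -- the right side
  have hR : ∀ ν, vsg m (τ.lr b' ν).1 (τ.lr b' ν).2 σ (τ.tt u ν) (v ν) =
      v ν ^ σ * (τ.tt u ν ^ (τ.lr (fun l => -(σ * b' l / m)) ν).1 *
        (1 - τ.tt u ν) ^ (τ.lr (fun l => -(σ * b' l / m)) ν).2) *
      (τ.tt u ν ^ ((τ.lr n ν).1 / m) * (1 - τ.tt u ν) ^ ((τ.lr n ν).2 / m))⁻¹ := by
    intro ν
    obtain ⟨r1, r2⟩ := lr_rel m σ τ b' n hnz ν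
    unfold vsg
    rw [(div_rel hm r1).1, (div_rel hm r2).1, zpow_sub₀ (ht ν), zpow_sub₀ (ht1 ν), zpow_natCast,
      zpow_natCast, mul_inv, mul_assoc]
    congr 1
    rw [div_eq_mul_inv, div_eq_mul_inv]
    ring
  have hQ : ∀ ν, ((m : ℤ) ≤ σ * (τ.lr b' ν).1 % m + σ * (τ.lr b' ν).2 % m ↔
      m ≤ (τ.lr n ν).1 % m + (τ.lr n ν).2 % m) := by
    intro ν
    obtain ⟨r1, r2⟩ := lr_rel m σ τ b' n hnz ν
    rw [(div_rel hm r1).2, (div_rel hm r2).2]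
    exact_mod_cast Iff.rfl
  have hQ' : (∏ ν, if (m : ℤ) ≤ σ * (τ.lr b' ν).1 % m + σ * (τ.lr b' ν).2 % m then
      τ.wt u ν else 1) = ∏ ν, τ.tt u ν ^ ((τ.lr n ν).1 / m) *
        (1 - τ.tt u ν) ^ ((τ.lr n ν).2 / m) := by
    rw [e5]
    refine Finset.prod_congr rfl fun ν _ => ?_
    by_cases hc : m ≤ (τ.lr n ν).1 % m + (τ.lr n ν).2 % m
    · rw [if_pos hc, if_pos ((hQ ν).2 hc)]
    · rw [if_neg hc, if_neg fun h => hc ((hQ ν).1 h)]
  have hP : (∏ ν, τ.tt u ν ^ ((τ.lr n ν).1 / m) * (1 - τ.tt u ν) ^ ((τ.lr n ν).2 / m)) ≠ 0 :=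
    Finset.prod_ne_zero_iff.2 fun ν _ => mul_ne_zero (pow_ne_zero _ (ht ν)) (pow_ne_zero _ (ht1 ν))
  have key : ∀ f g h : τ.N → ℂ, ∏ ν, f ν ^ σ * g ν * (h ν)⁻¹ =
      (∏ ν, f ν) ^ σ * (∏ ν, g ν) * (∏ ν, h ν)⁻¹ := by
    intro f g h
    rw [Finset.prod_mul_distrib, Finset.prod_mul_distrib, Finset.prod_inv_distrib,
      Finset.prod_zpow]
  rw [hQ', Finset.prod_congr rfl fun ν _ => hR ν, key]
  field_simp

end SE
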