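import Pool.Agent.Lib.SE.S2.GStmt

/-!
# PROJECT SE, part S2: `D_1` does not vanish on all sheets
-/

set_option autoImplicit false

open Finset

noncomputable section

namespace SE

namespace NVAux

variable {p q : ℕ}

/-- sums of powers over `p` distinct points -/
lemma pow_sum_zero {ι : Type} [DecidableEq ι] (S : Finset ι) (x d : ι → ℂ)
    (hx : Function.Injective x) (h : ∀ i : ℕ, i < S.card → ∑ a ∈ S, x a ^ i * d a = 0) :
    ∀ b ∈ S, d b = 0 := by
  intro b hb
  set P : Polynomial ℂ := ∏ a ∈ S.erase b, (Polynomial.X - Polynomial.C (x a)) with hP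
  have hdeg : P.natDegree < S.card := by
    rw [hP, Polynomial.natDegree_prod_of_monic _ _ (fun a _ => Polynomial.monic_X_sub_C _)]
    simp only [Polynomial.natDegree_X_sub_C, sum_const, smul_eq_mul, mul_one]
    exact card_erase_lt_of_mem hb
  have h1 : ∑ a ∈ S, P.eval (x a) * d a = 0 := by
    have e : ∀ a ∈ S, P.eval (x a) * d a =
        ∑ i ∈ range S.card, P.coeff i * (x a ^ i * d a) := by
      intro a _
      rw [Polynomial.eval_eq_sum_range' hdeg, sum_mul]
      exact sum_congr rfl fun i _ => by ring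
    rw [sum_congr rfl e, sum_comm]
    apply sum_eq_zero
    intro i hi
    rw [← mul_sum, h i (mem_range.1 hi), mul_zero]
  have hval : ∀ a, P.eval (x a) = ∏ c ∈ S.erase b, (x a - x c) := by
    intro a
    rw [hP, Polynomial.eval_prod]
    simp
  rw [← add_sum_erase S _ hb] at h1
  have h2 : ∑ a ∈ S.erase b, P.eval (x a) * d a = 0 := by
    apply sum_eq_zero
    intro a ha
    rw [hval, prod_eq_zero ha (sub_self _), zero_mul]
  rw [h2, add_zero] at h1
  have h3 : P.eval (x b) ≠ 0 := by
    rw [hval]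
    apply prod_ne_zero_iff.2
    intro c hc
    exact sub_ne_zero.2 fun e => (ne_of_mem_erase hc) (hx e).symm
  exact (mul_eq_zero.1 h1).resolve_left h3

/-- some `z` with non zero determinant -/
lemma exists_z (x F v : Fin p ⊕ Fin q → ℂ) (J : Matrix (Fin p ⊕ Fin q) (Fin p ⊕ Fin q) ℂ)
    (hx : Function.Injective x) (hF : ∀ a, F a ≠ 0) (hv : ∀ ν, v ν ≠ 0) (hJ : J.det ≠ 0) :
    ∃ z : Fin p ⊕ Fin q → ℂ, (M1 x z F v J).det ≠ 0 := by
  classical
  set col : Fin p ⊕ Fin q → (Fin q → ℂ) := fun a ν => J (Sum.inr ν) a / v (Sum.inr ν) with hcol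
  obtain ⟨κ, a, hinj, hspan, hli⟩ := exists_linearIndependent' ℂ col
  have hfin : Finite κ := Finite.of_injective a hinj
  let _ : Fintype κ := Fintype.ofFinite κ
  have htop : Submodule.span ℂ (Set.range col) = ⊤ := by
    rw [eq_top_iff]
    intro w _
    set c : Fin p ⊕ Fin q → ℂ :=
      J⁻¹.mulVec (Sum.elim (fun _ => 0) (fun ν => v (Sum.inr ν) * w ν)) with hc
    have h1 : J.mulVec c = Sum.elim (fun _ => 0) (fun ν => v (Sum.inr ν) * w ν) := by
      rw [hc, Matrix.mulVec_mulVec, Matrix.mul_nonsing_inv _ (isUnit_iff_ne_zero.2 hJ),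
        Matrix.one_mulVec]
    have h2 : w = ∑ b, c b • col b := by
      funext ν
      have h3 := congrFun h1 (Sum.inr ν)
      simp only [Sum.elim_inr, Matrix.mulVec, dotProduct] at h3
      rw [Finset.sum_apply]
      simp only [Pi.smul_apply, smul_eq_mul, hcol]
      have h4 : ∑ b, c b * (J (Sum.inr ν) b / v (Sum.inr ν)) =
          (∑ b, J (Sum.inr ν) b * c b) / v (Sum.inr ν) := by
        rw [sum_div]
        exact sum_congr rfl fun b _ => by ring
      rw [h4, h3, mul_div_cancel_left₀ _ (hv _)]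
    rw [h2]
    exact Submodule.sum_mem _ fun b _ =>
      Submodule.smul_mem _ _ (Submodule.subset_span ⟨b, rfl⟩)
  have hcard : Fintype.card κ = q := by
    have hb := Module.finrank_eq_card_basis
      (Module.Basis.mk hli (by rw [hspan, htop]))
    rw [← hb, Module.finrank_fin_fun]
  set T : Finset (Fin p ⊕ Fin q) := univ.image a with hT
  have hTc : T.card = q := by
    rw [hT, card_image_of_injective _ hinj, card_univ, hcard]
  have hSc : Tᶜ.card = p := by
    rw [card_compl, hTc, Fintype.card_sum, Fintype.card_fin, Fintype.card_fin]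
    omega
  refine ⟨fun b => if b ∈ T then 0 else 1, ?_⟩
  intro hdet
  obtain ⟨c, hc0, hc⟩ := Matrix.exists_mulVec_eq_zero_iff.2 hdet
  apply hc0
  have hS : ∀ b ∈ Tᶜ, c b / F b = 0 := by
    apply pow_sum_zero Tᶜ x (fun b => c b / F b) hx
    intro i hi
    rw [hSc] at hi
    have h1 := congrFun hc (Sum.inl ⟨i, hi⟩)
    simp only [M1, Matrix.mulVec, dotProduct, Matrix.of_apply, Sum.elim_inl, Pi.zero_apply] at h1
    rw [← h1, ← sum_add_sum_compl T]
    have h2 : ∑ b ∈ T, x b ^ i * (if b ∈ T then (0 : ℂ) else 1) / F b * c b = 0 := by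
      apply sum_eq_zero
      intro b hb
      rw [if_pos hb]; ring
    rw [h2, zero_add]
    apply sum_congr rfl
    intro b hb
    rw [if_neg (mem_compl.1 hb)]; ring
  have hS' : ∀ b ∈ Tᶜ, c b = 0 := by
    intro b hb
    have := hS b hb
    rw [div_eq_zero_iff] at this
    exact this.resolve_right (hF b)
  have hTz : ∑ k, c (a k) • (col ∘ a) k = 0 := by
    funext ν
    have h1 := congrFun hc (Sum.inr ν)
    simp only [M1, Matrix.mulVec, dotProduct, Matrix.of_apply, Sum.elim_inr, Pi.zero_apply] at h1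
    rw [← sum_add_sum_compl T] at h1
    have h2 : ∑ b ∈ Tᶜ, J (Sum.inr ν) b / v (Sum.inr ν) * c b = 0 := by
      apply sum_eq_zero
      intro b hb
      rw [hS' b hb, mul_zero]
    rw [h2, add_zero, hT, sum_image (fun _ _ _ _ h => hinj h)] at h1
    rw [Finset.sum_apply, Pi.zero_apply, ← h1]
    apply sum_congr rfl
    intro k _
    simp only [Function.comp_apply, Pi.smul_apply, smul_eq_mul, hcol]
    ring
  have h3 := Fintype.linearIndependent_iff.1 hli _ hTz
  funext b
  by_cases hb : b ∈ T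
  · obtain ⟨k, _, rfl⟩ := mem_image.1 hb
    exact h3 k
  · exact hS' b (mem_compl.2 hb)

/-- the determinant is affine in each `z_a` -/
lemma affine (x F v : Fin p ⊕ Fin q → ℂ) (J : Matrix (Fin p ⊕ Fin q) (Fin p ⊕ Fin q) ℂ)
    (z : Fin p ⊕ Fin q → ℂ) (a : Fin p ⊕ Fin q) :
    ∃ A B : ℂ, ∀ c : ℂ, (M1 x (Function.update z a c) F v J).det = A + c * B := by
  classical
  refine ⟨((M1 x z F v J).updateCol a
      (Sum.elim (fun _ => 0) (fun ν => J (Sum.inr ν) a / v (Sum.inr ν)))).det,
    ((M1 x z F v J).updateCol a (Sum.elim (fun i => x a ^ i.1 / F a) (fun _ => 0))).det, ?_⟩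
  intro c
  rw [← Matrix.det_updateCol_smul, ← Matrix.det_updateCol_add]
  congr 1
  ext ν b
  rw [Matrix.updateCol_apply]
  by_cases hb : b = a
  · subst hb
    rcases ν with i | ν
    · simp [M1]; ring
    · simp [M1]
  · rw [if_neg hb]
    rcases ν with i | ν
    · simp [M1, Function.update_of_ne hb]
    · simp [M1]

/-- replace the coordinates one by one -/
lemma replace (x F v : Fin p ⊕ Fin q → ℂ) (J : Matrix (Fin p ⊕ Fin q) (Fin p ⊕ Fin q) ℂ)
    (z : Fin p ⊕ Fin q → ℂ) (hz : (M1 x z F v J).det ≠ 0) (m : ℕ) (ω : ℂ) (hω : ω ^ m = 1)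
    (hω1 : ω ≠ 1) (y : Fin p ⊕ Fin q → ℂ) (hy : ∀ a, y a ≠ 0) (S : Finset (Fin p ⊕ Fin q)) :
    ∃ ζ : Fin p ⊕ Fin q → ℂ, (∀ a, ζ a ^ m = 1) ∧
      (M1 x (fun a => if a ∈ S then ζ a * y a else z a) F v J).det ≠ 0 := by
  classical
  induction S using Finset.induction_on with
  | empty => exact ⟨fun _ => 1, fun _ => one_pow _, by simpa using hz⟩
  | insert a S ha ih =>
    obtain ⟨ζ, hζ, hd⟩ := ih
    set w : Fin p ⊕ Fin q → ℂ := fun b => if b ∈ S then ζ b * y b else z b with hw
    obtain ⟨A, B, hAB⟩ := affine x F v J w a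
    have h0 : A + w a * B ≠ 0 := by
      rw [← hAB, Function.update_eq_self]
      exact hd
    have key : ∃ η : ℂ, η ^ m = 1 ∧ A + η * y a * B ≠ 0 := by
      by_contra hcon
      push Not at hcon
      have e1 := hcon 1 (one_pow _)
      have e2 := hcon ω hω
      have e3 : (ω - 1) * (y a * B) = 0 := by linear_combination e2 - e1
      have e4 : y a * B = 0 := (mul_eq_zero.1 e3).resolve_left (sub_ne_zero.2 hω1)
      have e5 : B = 0 := (mul_eq_zero.1 e4).resolve_left (hy a)
      rw [e5] at e1 h0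
      exact h0 (by linear_combination e1)
    obtain ⟨η, hη, hne⟩ := key
    refine ⟨Function.update ζ a η, ?_, ?_⟩
    · intro b
      by_cases hb : b = a
      · subst hb; rw [Function.update_self]; exact hη
      · rw [Function.update_of_ne hb]; exact hζ b
    · have e : (fun b => if b ∈ insert a S then Function.update ζ a η b * y b else z b) =
          Function.update w a (η * y a) := by
        funext b
        by_cases hb : b = a
        · subst hb
          rw [Function.update_self, Function.update_self, if_pos (mem_insert_self _ _)]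
        · rw [Function.update_of_ne hb, Function.update_of_ne hb, hw]
          simp only [mem_insert, hb, false_or]
      rw [e, hAB]
      exact hne

end NVAux

open NVAux in
theorem gNV (h5 : S_A5) : S_NV := by
  classical
  intro p q τ eL eN s hs x hx m hm y v hy hv
  obtain ⟨C, hC, hdet⟩ := h5 p q τ eL eN s hs
  have hxg := hx
  obtain ⟨hxi, hxs, hok⟩ := hx
  have hJ : (JJ τ eL eN s x).det ≠ 0 := by
    rw [hdet x hxg]
    refine mul_ne_zero (mul_ne_zero hC ?_) ?_
    · unfold vdm
      refine prod_ne_zero_iff.2 fun i _ => prod_ne_zero_iff.2 fun j hj => ?_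
      exact sub_ne_zero.2 fun e => (mem_Ioi.1 hj).ne' (hxi e)
    · exact prod_ne_zero_iff.2 fun ν _ => inv_ne_zero (hok.2.2 ν).2.2
  have hxi' : Function.Injective (fun a : Fin p ⊕ Fin q => x (fs a)) :=
    hxi.comp finSumFinEquiv.injective
  obtain ⟨z, hz⟩ := exists_z (fun a => x (fs a)) (fun a => ∏ j, (x (fs a) - s j)) v
    (JJ τ eL eN s x) hxi' (fun a => prod_ne_zero_iff.2 fun j _ => sub_ne_zero.2 (hxs _ j)) hv hJ
  have hω := Complex.isPrimitiveRoot_exp m (by omega)
  obtain ⟨ζ, h1, h2⟩ := replace (fun a => x (fs a)) (fun a => ∏ j, (x (fs a) - s j)) v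
    (JJ τ eL eN s x) z hz m _ hω.pow_eq_one (hω.ne_one (by omega)) y hy univ
  refine ⟨ζ, h1, ?_⟩
  simpa using h2

end SE
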