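import Pool.Agent.Lib.SE.S2.GVal
import Pool.Agent.Lib.SE.S2.Sheet

/-! # PROJECT SE, POS: `D_2` is not `0` on some sheet (helper26) -/

set_option autoImplicit false

open Finset

noncomputable section

namespace SE

open SE.S4

namespace POSAux

lemma lr_cast (τ : Tr) (b : τ.L → ℕ) (ν : τ.N) :
    (τ.lr (fun l => (b l : ℤ)) ν).1 = ((τ.lr b ν).1 : ℤ) ∧
      (τ.lr (fun l => (b l : ℤ)) ν).2 = ((τ.lr b ν).2 : ℤ) := by
  induction τ with
  | lf => exact Empty.elim ν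
  | nd l r ihl ihr =>
    match ν with
    | none =>
      constructor
      · change ∑ j, (b (Sum.inl j) : ℤ) = ((∑ j, b (Sum.inl j) : ℕ) : ℤ)
        rw [Nat.cast_sum]
      · change ∑ j, (b (Sum.inr j) : ℤ) = ((∑ j, b (Sum.inr j) : ℕ) : ℤ)
        rw [Nat.cast_sum]
    | some (Sum.inl ν) => exact ihl _ ν
    | some (Sum.inr ν) => exact ihr _ ν

variable {p q : ℕ}

lemma M1_scale (x y F v v' : Fin p ⊕ Fin q → ℂ) (J : Matrix (Fin p ⊕ Fin q) (Fin p ⊕ Fin q) ℂ)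
    (hv : ∀ ν, v ν ≠ 0) (hv' : ∀ ν, v' ν ≠ 0) (h : (M1 x y F v J).det ≠ 0) :
    (M1 x y F v' J).det ≠ 0 := by
  have h1 : M1 x y F v' J = Matrix.diagonal (Sum.elim (fun _ : Fin p => (1 : ℂ))
      (fun i : Fin q => v (Sum.inr i) / v' (Sum.inr i))) * M1 x y F v J := by
    ext ν a
    rw [Matrix.diagonal_mul]
    rcases ν with i | i
    · simp [M1]
    · have h2 := hv (Sum.inr i)
      have h3 := hv' (Sum.inr i)
      simp only [M1, Matrix.of_apply, Sum.elim_inr]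
      field_simp
  rw [h1, Matrix.det_mul, Matrix.det_diagonal]
  refine mul_ne_zero (Finset.prod_ne_zero_iff.mpr fun ν _ => ?_) h
  rcases ν with i | i
  · exact one_ne_zero
  · exact div_ne_zero (hv _) (hv' _)

lemma H1_eq (m : ℕ) (τ : Tr) (eL : Fin (p + q + 1) ≃ τ.L) (s : Fin (p + q + 1) → ℂ)
    (b : Fin (p + q + 1) → ℕ) (e : Fin p ⊕ Fin q ≃ τ.N) (u : ℕ) (x y : Fin (p + q) → ℂ) (v : τ.N → ℂ) :
    (Matrix.of fun k a => H1 m τ eL s b e u x y v k (fs a)) =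
      M1 (fun a => x (fs a)) (fun a => y (fs a) ^ u / ∏ j, (x (fs a) - s j) ^ (u * b j / m))
        (fun a => ∏ j, (x (fs a) - s j))
        (fun ν => Sum.elim (fun _ : Fin p => (1 : ℂ))
          (fun i : Fin q => (fN m τ eL s b (m - u) x (e (Sum.inr i)) (v (e (Sum.inr i))))⁻¹) ν)
        (JJ τ eL e s x) := by
  ext k a
  rcases k with i | i
  · simp only [Matrix.of_apply, H1, M1, Sum.elim_inl, fA, pow_add, pow_one, Finset.prod_mul_distrib]
    rw [mul_div_assoc', div_div, mul_comm (∏ j, (x (fs a) - s j))]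
  · simp only [Matrix.of_apply, H1, M1, Sum.elim_inr, div_inv_eq_mul]
    rw [mul_comm]
    rfl

lemma root {m u : ℕ} (hm : 1 < m) (hu : u.Coprime m) (ζ : ℂ) (hζ : ζ ^ m = 1) :
    ∃ ξ : ℂ, ξ ^ m = 1 ∧ ξ ^ u = ζ := by
  obtain ⟨k, -, hk⟩ := Nat.exists_mul_mod_eq_one_of_coprime hu hm
  refine ⟨ζ ^ k, ?_, ?_⟩
  · rw [← pow_mul, mul_comm, pow_mul, hζ, one_pow]
  · rw [← pow_mul, mul_comm, ← Nat.div_add_mod (u * k) m, hk, pow_add, pow_mul, hζ, one_pow, one_mul,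
      pow_one]

lemma tN_ne {r : ℕ} (τ : Tr) (eL : Fin (r + 1) ≃ τ.L) (s : Fin (r + 1) → ℂ) (x : Fin r → ℂ)
    (hx : x ∈ gD τ eL s) (ν : τ.N) : tN τ eL s x ν ≠ 0 ∧ 1 - tN τ eL s x ν ≠ 0 := by
  obtain ⟨-, -, -, -, hok⟩ := hx
  obtain ⟨h1, h2, h3⟩ := hok ν
  constructor
  · exact div_ne_zero h1 h3
  · rw [tN, Tr.tt, one_sub_div h3]
    refine div_ne_zero ?_ h3
    rwa [Tr.wt, add_sub_cancel_left]

end POSAux

open POSAux

theorem gPOS (h1 : S_VAL) (h2 : S_NV) (_h3 : S_G1) (h4 : S_T4) : S_POS := by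
  intro m r s b hcov hr τ eL hGt κ hκ u hum huc p q e ec hP hQ x hx
  obtain ⟨hm3, hsinj, hbm, hbs, hd⟩ := id hcov
  have hm0 : m ≠ 0 := by omega
  have hmpos : 0 < m := by omega
  have hrpq : r = p + q := by
    have := Fintype.card_congr ec
    rw [Fintype.card_sum, Fintype.card_fin, Fintype.card_fin, Fintype.card_fin] at this
    exact this.symm
  subst hrpq
  have hκ0 : κ ≠ 0 := by
    rintro rfl
    rw [zero_pow hm0] at hκ
    exact Finset.prod_ne_zero_iff.mpr (fun j _ => pow_ne_zero _ (mul_ne_zero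
      (pow_ne_zero _ (by norm_num)) (Fd_ne hsinj j))) hκ.symm
  obtain ⟨C, hC, hval⟩ := h1 m (p + q) s b hcov τ eL hGt κ hκ0 u hum huc p q e ec hP hQ
  have hν0 : Nonempty τ.N := ⟨e (ec.symm ⟨0, hr⟩)⟩
  -- a sheet
  have hGne : ∀ ν, tN τ eL s x ν ^ cL τ eL b ν * (1 - tN τ eL s x ν) ^ cR τ eL b ν ≠ 0 := fun ν =>
    mul_ne_zero (pow_ne_zero _ (tN_ne τ eL s x hx ν).1) (pow_ne_zero _ (tN_ne τ eL s x hx ν).2)
  have hprod : ∏ a, ∏ j, (x a - s j) ^ b j =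
      κ ^ m * ∏ ν, (tN τ eL s x ν ^ cL τ eL b ν * (1 - tN τ eL s x ν) ^ cR τ eL b ν) := by
    rw [prod_f hsinj, ← hκ]
    congr 1
    have h5 := h4 τ (uL τ eL s x) (fun l => (b (eL.symm l) : ℤ)) hx.2.2
    have h6 : ∑ l, uL τ eL s x l = 1 := by
      rw [← sum_ux hsinj x]
      exact Equiv.sum_comp eL.symm (fun j => ux s x j)
    rw [h6, one_zpow, one_mul] at h5
    have h7 : ∏ l, uL τ eL s x l ^ (b (eL.symm l) : ℤ) = ∏ j, ux s x j ^ b j := by
      rw [← Equiv.prod_comp eL.symm (fun j => ux s x j ^ b j)]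
      exact Finset.prod_congr rfl fun l _ => zpow_natCast _ _
    rw [← h7, h5]
    refine Finset.prod_congr rfl fun ν _ => ?_
    obtain ⟨h8, h9⟩ := lr_cast τ (fun l => b (eL.symm l)) ν
    rw [h8, h9, zpow_natCast, zpow_natCast]
    rfl
  obtain ⟨⟨y, v⟩, hy, hv, hyv⟩ := sheet_nonempty (ι := Fin (p + q)) (κ := τ.N) hm0 (k := κ)
    (F := fun a => ∏ j, (x a - s j) ^ b j)
    (G := fun ν => tN τ eL s x ν ^ cL τ eL b ν * (1 - tN τ eL s x ν) ^ cR τ eL b ν) hκ0 hGne hprod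
  simp only at hy hv hyv
  have hy0 : ∀ a, y a ≠ 0 := by
    intro a h0
    have h5 := hy a
    rw [h0, zero_pow hm0] at h5
    exact Finset.prod_ne_zero_iff.mpr (fun j _ => pow_ne_zero _ (sub_ne_zero.mpr (hx.2.1 a j))) h5.symm
  have hfN : ∀ w : τ.N → ℂ, (∀ ν, w ν ^ m = tN τ eL s x ν ^ cL τ eL b ν *
      (1 - tN τ eL s x ν) ^ cR τ eL b ν) → ∀ k : Fin p ⊕ Fin q, Sum.elim (fun _ : Fin p => (1 : ℂ))
          (fun i : Fin q => (fN m τ eL s b (m - u) x (e (Sum.inr i)) (w (e (Sum.inr i))))⁻¹) k ≠ 0 := by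
    intro w hw k
    rcases k with i | i
    · exact one_ne_zero
    · have h5 := tN_ne τ eL s x hx (e (Sum.inr i))
      exact inv_ne_zero (div_ne_zero (Wf_ne hmpos h5.1 h5.2 (hw _)) (mul_ne_zero h5.1 h5.2))
  have hY0 : ∀ a : Fin p ⊕ Fin q, y (fs a) ^ u / ∏ j, (x (fs a) - s j) ^ (u * b j / m) ≠ 0 := by
    intro a
    exact div_ne_zero (pow_ne_zero _ (hy0 _)) (Finset.prod_ne_zero_iff.mpr fun j _ =>
      pow_ne_zero _ (sub_ne_zero.mpr (hx.2.1 _ j)))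
  obtain ⟨ζ, hζ, hdet⟩ := h2 p q τ eL e s hsinj x hx m (by omega)
    (fun a => y (fs a) ^ u / ∏ j, (x (fs a) - s j) ^ (u * b j / m)) _ hY0 (hfN v hv)
  choose ξ hξm hξu using fun a => root (by omega) huc (ζ a) (hζ a)
  obtain ⟨ν0⟩ := hν0
  -- the new sheet
  set Ξ : ℂ := ∏ a : Fin (p + q), ξ (finSumFinEquiv.symm a) with hΞ
  have hΞm : Ξ ^ m = 1 := by
    rw [hΞ, ← Finset.prod_pow]
    exact Finset.prod_eq_one fun a _ => hξm _
  have hv' : ∀ ν, Function.update v ν0 (Ξ * v ν0) ν ^ m = tN τ eL s x ν ^ cL τ eL b ν *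
      (1 - tN τ eL s x ν) ^ cR τ eL b ν := by
    intro ν
    by_cases h : ν = ν0
    · subst h
      rw [Function.update_self, mul_pow, hΞm, one_mul, hv]
    · rw [Function.update_of_ne h, hv]
  have hsh : Shs m τ eL s b κ x (fun a => ξ (finSumFinEquiv.symm a) * y a)
      (Function.update v ν0 (Ξ * v ν0)) := by
    refine ⟨fun a => ?_, hv', ?_⟩
    · rw [mul_pow, hξm, one_mul, hy]
    · rw [Finset.prod_mul_distrib, ← hΞ, hyv, Finset.prod_update_of_mem (Finset.mem_univ ν0)]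
      have h3 : (∏ i, v i) = v ν0 * ∏ x ∈ univ \ {ν0}, v x := by
        rw [Finset.sdiff_singleton_eq_erase, Finset.mul_prod_erase univ v (Finset.mem_univ ν0)]
      rw [h3]
      ring
  refine ⟨_, _, hsh, fun h0 => ?_⟩
  have h10 := hval x hx _ _ hsh
  rw [h0, mul_zero] at h10
  -- the columns
  have h11 : (Matrix.of fun k a => H1 m τ eL s b e u x (fun a => ξ (finSumFinEquiv.symm a) * y a)
      (Function.update v ν0 (Ξ * v ν0)) k (ec a)) =
      (Matrix.of fun k a => H1 m τ eL s b e u x (fun a => ξ (finSumFinEquiv.symm a) * y a)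
        (Function.update v ν0 (Ξ * v ν0)) k (fs a)).submatrix id (ec.trans finSumFinEquiv.symm) := by
    ext k a
    simp [fs]
  rw [h11, Matrix.det_permute', H1_eq] at h10
  have hsign : ((Equiv.Perm.sign (ec.trans finSumFinEquiv.symm) : ℤ) : ℂ) ≠ 0 := by
    rcases Int.units_eq_one_or (Equiv.Perm.sign (ec.trans finSumFinEquiv.symm)) with h | h <;> simp [h]
  have h12 := (mul_eq_zero.1 h10).resolve_left hsign
  have h13 : (fun a : Fin p ⊕ Fin q => (ξ (finSumFinEquiv.symm (fs a)) * y (fs a)) ^ u /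
      ∏ j, (x (fs a) - s j) ^ (u * b j / m)) =
      fun a => ζ a * (y (fs a) ^ u / ∏ j, (x (fs a) - s j) ^ (u * b j / m)) := by
    funext a
    rw [fs, Equiv.symm_apply_apply, mul_pow, hξu, mul_div_assoc]
  rw [h13] at h12
  exact M1_scale _ _ _ _ _ _ (hfN v hv) (hfN _ hv') hdet h12

end SE
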