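import Pool.Agent.Lib.SE.S2.GDefs

/-!
# PROJECT SE, part S2, general signature, (T1): the metric in tree coordinates (helper92)
-/

set_option autoImplicit false

open Finset

noncomputable section

namespace SE

namespace T1Aux

open Tr

theorem sumL {M : Type} [AddCommMonoid M] (l r : Tr) (f : (nd l r).L → M) :
    ∑ j, f j = ∑ j : l.L, f (Sum.inl j) + ∑ j : r.L, f (Sum.inr j) :=
  Fintype.sum_sum_type f

theorem sumN {M : Type} [AddCommMonoid M] (l r : Tr) (f : (nd l r).N → M) :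
    ∑ ν, f ν = f none + (∑ ν : l.N, f (some (Sum.inl ν)) + ∑ ν : r.N, f (some (Sum.inr ν))) := by
  have h1 : ∑ ν, f ν = f none + ∑ ν : l.N ⊕ r.N, f (some ν) :=
    Fintype.sum_option (α := l.N ⊕ r.N) f
  rw [h1]
  have h2 : ∑ ν : l.N ⊕ r.N, f (some ν) =
      ∑ ν : l.N, f (some (Sum.inl ν)) + ∑ ν : r.N, f (some (Sum.inr ν)) :=
    Fintype.sum_sum_type fun ν : l.N ⊕ r.N => f (some ν)
  rw [h2]

theorem root {a b a' b' U V : ℂ} (hU : U ≠ 0) (hV : V ≠ 0) (hW : U + V ≠ 0) :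
    a * a' / U + b * b' / V = (a + b) * (a' + b') / (U + V) +
      (U + V) ^ 3 / (U * V) * ((a * (U + V) - U * (a + b)) / (U + V) ^ 2 *
        ((a' * (U + V) - U * (a' + b')) / (U + V) ^ 2)) := by
  field_simp
  ring

end T1Aux

open T1Aux Tr in
/-- (T1) The metric `∑ du_j^2 / u_j` is diagonal in the `t`. -/
theorem gT1 : S_T1 := by
  intro τ
  induction τ with
  | lf =>
    intro u w w' _
    have h1 : ∀ f : lf.L → ℂ, ∑ j, f j = f () := fun f => Fintype.sum_unique (ι := Unit) f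
    have h2 : ∀ f : lf.N → ℂ, ∑ ν, f ν = 0 := fun f => Fintype.sum_empty (ι := Empty) f
    rw [h1, h1, h1, h1, h2, add_zero]
  | nd l r ihl ihr =>
    intro u w w' hok
    obtain ⟨h1, h2, h3⟩ := hok
    have hU : ∑ j, u (Sum.inl j) ≠ 0 := (h3 none).1
    have hV : ∑ j, u (Sum.inr j) ≠ 0 := (h3 none).2.1
    have hW : ∑ j, u (Sum.inl j) + ∑ j, u (Sum.inr j) ≠ 0 := (h3 none).2.2
    have hl := ihl (fun j => u (Sum.inl j)) (fun j => w (Sum.inl j)) (fun j => w' (Sum.inl j))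
      ⟨fun j => h1 _, hU, fun ν => h3 (some (Sum.inl ν))⟩
    have hr := ihr (fun j => u (Sum.inr j)) (fun j => w (Sum.inr j)) (fun j => w' (Sum.inr j))
      ⟨fun j => h1 _, hV, fun ν => h3 (some (Sum.inr ν))⟩
    have hN := sumN l r fun ν => (nd l r).wt u ν ^ 3 / (((nd l r).lr u ν).1 * ((nd l r).lr u ν).2) *
      ((nd l r).dt u w ν * (nd l r).dt u w' ν)
    have hN' : ∑ ν, (nd l r).wt u ν ^ 3 / (((nd l r).lr u ν).1 * ((nd l r).lr u ν).2) *
        ((nd l r).dt u w ν * (nd l r).dt u w' ν) =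
        (∑ j, u (Sum.inl j) + ∑ j, u (Sum.inr j)) ^ 3 /
          ((∑ j, u (Sum.inl j)) * (∑ j, u (Sum.inr j))) *
        (((∑ j, w (Sum.inl j)) * (∑ j, u (Sum.inl j) + ∑ j, u (Sum.inr j)) -
          (∑ j, u (Sum.inl j)) * (∑ j, w (Sum.inl j) + ∑ j, w (Sum.inr j))) /
          (∑ j, u (Sum.inl j) + ∑ j, u (Sum.inr j)) ^ 2 *
        (((∑ j, w' (Sum.inl j)) * (∑ j, u (Sum.inl j) + ∑ j, u (Sum.inr j)) -
          (∑ j, u (Sum.inl j)) * (∑ j, w' (Sum.inl j) + ∑ j, w' (Sum.inr j))) /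
          (∑ j, u (Sum.inl j) + ∑ j, u (Sum.inr j)) ^ 2)) +
        (∑ ν, l.wt (fun j => u (Sum.inl j)) ν ^ 3 /
          ((l.lr (fun j => u (Sum.inl j)) ν).1 * (l.lr (fun j => u (Sum.inl j)) ν).2) *
          (l.dt (fun j => u (Sum.inl j)) (fun j => w (Sum.inl j)) ν *
            l.dt (fun j => u (Sum.inl j)) (fun j => w' (Sum.inl j)) ν) +
        ∑ ν, r.wt (fun j => u (Sum.inr j)) ν ^ 3 /
          ((r.lr (fun j => u (Sum.inr j)) ν).1 * (r.lr (fun j => u (Sum.inr j)) ν).2) *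
          (r.dt (fun j => u (Sum.inr j)) (fun j => w (Sum.inr j)) ν *
            r.dt (fun j => u (Sum.inr j)) (fun j => w' (Sum.inr j)) ν)) := hN
    rw [hN', sumL l r fun j => w j * w' j / u j, hl, hr, sumL l r w, sumL l r w', sumL l r u]
    have hroot := root (a := ∑ j, w (Sum.inl j)) (b := ∑ j, w (Sum.inr j))
      (a' := ∑ j, w' (Sum.inl j)) (b' := ∑ j, w' (Sum.inr j)) hU hV hW
    linear_combination hroot

end SE
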