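import Pool.Agent.Lib.SE.S2.GDefs

/-!
# PROJECT SE, S2/G, T2: the determinant of the tree Jacobian
-/

set_option autoImplicit false

open Finset

noncomputable section

namespace SE

namespace T2Aux

open Tr

/-- the bijection of the indices at a node -/
def ee (l r : Tr) : Option l.N ⊕ Option r.N ≃ Option (nd l r).N :=
  ({ toFun := fun a => match a with
      | Sum.inl none => none
      | Sum.inr none => some none
      | Sum.inl (some a) => some (some (Sum.inl a))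
      | Sum.inr (some a) => some (some (Sum.inr a))
     invFun := fun a => match a with
      | none => Sum.inl none
      | some none => Sum.inr none
      | some (some (Sum.inl a)) => Sum.inl (some a)
      | some (some (Sum.inr a)) => Sum.inr (some a)
     left_inv := fun a => by rcases a with (_ | a) | (_ | a) <;> rfl
     right_inv := fun a => by rcases a with _ | _ | a | a <;> rfl } :
    Option l.N ⊕ Option r.N ≃ Option (Option (l.N ⊕ r.N)))

theorem ee_eL (l r : Tr) (a : Option l.N) :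
    (nd l r).eNL (ee l r (Sum.inl a)) = (Sum.inl (l.eNL a) : l.L ⊕ r.L) := by
  rcases a with _ | a <;> rfl

theorem ee_eR (l r : Tr) (a : Option r.N) :
    (nd l r).eNL (ee l r (Sum.inr a)) = (Sum.inr (r.eNL a) : l.L ⊕ r.L) := by
  rcases a with _ | a <;> rfl

theorem lr_zero : ∀ (τ : Tr) (ν : τ.N), τ.lr (fun _ => (0 : ℂ)) ν = (0, 0)
  | lf, ν => Empty.elim ν
  | nd l r, none => by
    show ((∑ j : l.L, (0 : ℂ)), (∑ j : r.L, (0 : ℂ))) = (0, 0)
    simp
  | nd l r, some (Sum.inl ν) => lr_zero l ν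
  | nd l r, some (Sum.inr ν) => lr_zero r ν

theorem dt_zero (τ : Tr) (u : τ.L → ℂ) (ν : τ.N) : τ.dt u (fun _ => (0 : ℂ)) ν = 0 := by
  unfold Tr.dt Tr.wt
  rw [lr_zero]
  simp

theorem single_LL (l r : Tr) (j : l.L) :
    (fun i : l.L => (Pi.single (Sum.inl j : (nd l r).L) (1 : ℂ) : (nd l r).L → ℂ)
      (Sum.inl i : l.L ⊕ r.L)) = Pi.single j 1 := by
  funext i
  by_cases h : i = j
  · subst h
    have h1 : (Pi.single (Sum.inl i : (nd l r).L) (1 : ℂ) : (nd l r).L → ℂ)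
        (Sum.inl i : l.L ⊕ r.L) = 1 := Pi.single_eq_same (M := fun _ : (nd l r).L => ℂ) _ _
    have h2 : (Pi.single i (1 : ℂ) : l.L → ℂ) i = 1 :=
      Pi.single_eq_same (M := fun _ : l.L => ℂ) _ _
    exact h1.trans h2.symm
  · rw [Pi.single_eq_of_ne h]
    exact Pi.single_eq_of_ne (M := fun _ : (nd l r).L => ℂ) (fun h' => h (Sum.inl.inj h')) _

theorem single_LR (l r : Tr) (j : l.L) :
    (fun i : r.L => (Pi.single (Sum.inl j : (nd l r).L) (1 : ℂ) : (nd l r).L → ℂ)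
      (Sum.inr i : l.L ⊕ r.L)) = fun _ => 0 := by
  funext i
  exact Pi.single_eq_of_ne (M := fun _ : (nd l r).L => ℂ) (fun h' => by cases h') _

theorem single_RR (l r : Tr) (j : r.L) :
    (fun i : r.L => (Pi.single (Sum.inr j : (nd l r).L) (1 : ℂ) : (nd l r).L → ℂ)
      (Sum.inr i : l.L ⊕ r.L)) = Pi.single j 1 := by
  funext i
  by_cases h : i = j
  · subst h
    have h1 : (Pi.single (Sum.inr i : (nd l r).L) (1 : ℂ) : (nd l r).L → ℂ)
        (Sum.inr i : l.L ⊕ r.L) = 1 := Pi.single_eq_same (M := fun _ : (nd l r).L => ℂ) _ _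
    have h2 : (Pi.single i (1 : ℂ) : r.L → ℂ) i = 1 :=
      Pi.single_eq_same (M := fun _ : r.L => ℂ) _ _
    exact h1.trans h2.symm
  · rw [Pi.single_eq_of_ne h]
    exact Pi.single_eq_of_ne (M := fun _ : (nd l r).L => ℂ) (fun h' => h (Sum.inr.inj h')) _

theorem single_RL (l r : Tr) (j : r.L) :
    (fun i : l.L => (Pi.single (Sum.inr j : (nd l r).L) (1 : ℂ) : (nd l r).L → ℂ)
      (Sum.inl i : l.L ⊕ r.L)) = fun _ => 0 := by
  funext i
  exact Pi.single_eq_of_ne (M := fun _ : (nd l r).L => ℂ) (fun h' => by cases h') _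

/-- the left part -/
abbrev uL {l r : Tr} (u : (nd l r).L → ℂ) : l.L → ℂ := fun j => u (Sum.inl j : l.L ⊕ r.L)

/-- the right part -/
abbrev uR {l r : Tr} (u : (nd l r).L → ℂ) : r.L → ℂ := fun j => u (Sum.inr j : l.L ⊕ r.L)

/-- the matrix at a node -/
def MM {l r : Tr} (u : (nd l r).L → ℂ) : Matrix (Option l.N ⊕ Option r.N) (Option l.N ⊕ Option r.N) ℂ :=
  (((nd l r).Kt u).submatrix id (nd l r).eNL).submatrix (ee l r) (ee l r)

/-- the matrix of a subtree -/
def KK (τ : Tr) (u : τ.L → ℂ) : Matrix (Option τ.N) (Option τ.N) ℂ :=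
  (τ.Kt u).submatrix id τ.eNL

theorem det_MM {l r : Tr} (u : (nd l r).L → ℂ) :
    (((nd l r).Kt u).submatrix id (nd l r).eNL).det = (MM u).det :=
  (Matrix.det_submatrix_equiv_self (ee l r) _).symm

theorem MM_inl_none {l r : Tr} (u : (nd l r).L → ℂ) (j : Option l.N ⊕ Option r.N) :
    MM u (Sum.inl none) j = 1 := by
  rfl

theorem MM_inr_none_inl {l r : Tr} (u : (nd l r).L → ℂ) (j : Option l.N) :
    MM u (Sum.inr none) (Sum.inl j) =
      (∑ i, uR u i) / (∑ i, uL u i + ∑ i, uR u i) ^ 2 := by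
  have h1 : MM u (Sum.inr none) (Sum.inl j) =
      (nd l r).dt u (Pi.single ((nd l r).eNL (ee l r (Sum.inl j))) 1) (none : Option (l.N ⊕ r.N)) := rfl
  rw [h1, ee_eL]
  have h2 : (nd l r).dt u (Pi.single (Sum.inl (l.eNL j) : l.L ⊕ r.L) 1) (none : Option (l.N ⊕ r.N)) =
      ((∑ i : l.L, (Pi.single (Sum.inl (l.eNL j) : (nd l r).L) (1 : ℂ) : (nd l r).L → ℂ)
        (Sum.inl i : l.L ⊕ r.L)) * (∑ i, uL u i + ∑ i, uR u i) - (∑ i, uL u i) *
        ((∑ i : l.L, (Pi.single (Sum.inl (l.eNL j) : (nd l r).L) (1 : ℂ) : (nd l r).L → ℂ)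
        (Sum.inl i : l.L ⊕ r.L)) + (∑ i : r.L, (Pi.single (Sum.inl (l.eNL j) : (nd l r).L) (1 : ℂ) :
          (nd l r).L → ℂ) (Sum.inr i : l.L ⊕ r.L)))) / (∑ i, uL u i + ∑ i, uR u i) ^ 2 := rfl
  rw [h2]
  have h3 := single_LL l r (l.eNL j)
  have h4 := single_LR l r (l.eNL j)
  rw [h3, h4]
  rw [Finset.sum_pi_single']
  simp

theorem MM_inr_none_inr {l r : Tr} (u : (nd l r).L → ℂ) (j : Option r.N) :
    MM u (Sum.inr none) (Sum.inr j) =
      -(∑ i, uL u i) / (∑ i, uL u i + ∑ i, uR u i) ^ 2 := by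
  have h1 : MM u (Sum.inr none) (Sum.inr j) =
      (nd l r).dt u (Pi.single ((nd l r).eNL (ee l r (Sum.inr j))) 1) (none : Option (l.N ⊕ r.N)) := rfl
  rw [h1, ee_eR]
  have h2 : (nd l r).dt u (Pi.single (Sum.inr (r.eNL j) : l.L ⊕ r.L) 1) (none : Option (l.N ⊕ r.N)) =
      ((∑ i : l.L, (Pi.single (Sum.inr (r.eNL j) : (nd l r).L) (1 : ℂ) : (nd l r).L → ℂ)
        (Sum.inl i : l.L ⊕ r.L)) * (∑ i, uL u i + ∑ i, uR u i) - (∑ i, uL u i) *
        ((∑ i : l.L, (Pi.single (Sum.inr (r.eNL j) : (nd l r).L) (1 : ℂ) : (nd l r).L → ℂ)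
        (Sum.inl i : l.L ⊕ r.L)) + (∑ i : r.L, (Pi.single (Sum.inr (r.eNL j) : (nd l r).L) (1 : ℂ) :
          (nd l r).L → ℂ) (Sum.inr i : l.L ⊕ r.L)))) / (∑ i, uL u i + ∑ i, uR u i) ^ 2 := rfl
  rw [h2]
  have h3 := single_RL l r (r.eNL j)
  have h4 := single_RR l r (r.eNL j)
  rw [h3, h4]
  rw [Finset.sum_pi_single']
  simp

theorem MM_LL {l r : Tr} (u : (nd l r).L → ℂ) (a : l.N) (j : Option l.N) :
    MM u (Sum.inl (some a)) (Sum.inl j) = KK l (uL u) (some a) j := by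
  have h1 : MM u (Sum.inl (some a)) (Sum.inl j) =
      (nd l r).dt u (Pi.single ((nd l r).eNL (ee l r (Sum.inl j))) 1)
        (some (Sum.inl a) : Option (l.N ⊕ r.N)) := rfl
  rw [h1, ee_eL]
  have h2 : (nd l r).dt u (Pi.single (Sum.inl (l.eNL j) : l.L ⊕ r.L) 1)
      (some (Sum.inl a) : Option (l.N ⊕ r.N)) = l.dt (uL u) (fun i : l.L =>
        (Pi.single (Sum.inl (l.eNL j) : (nd l r).L) (1 : ℂ) : (nd l r).L → ℂ)
        (Sum.inl i : l.L ⊕ r.L)) a := rfl
  rw [h2, single_LL]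
  rfl

theorem MM_LR {l r : Tr} (u : (nd l r).L → ℂ) (a : l.N) (j : Option r.N) :
    MM u (Sum.inl (some a)) (Sum.inr j) = 0 := by
  have h1 : MM u (Sum.inl (some a)) (Sum.inr j) =
      (nd l r).dt u (Pi.single ((nd l r).eNL (ee l r (Sum.inr j))) 1)
        (some (Sum.inl a) : Option (l.N ⊕ r.N)) := rfl
  rw [h1, ee_eR]
  have h2 : (nd l r).dt u (Pi.single (Sum.inr (r.eNL j) : l.L ⊕ r.L) 1)
      (some (Sum.inl a) : Option (l.N ⊕ r.N)) = l.dt (uL u) (fun i : l.L =>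
        (Pi.single (Sum.inr (r.eNL j) : (nd l r).L) (1 : ℂ) : (nd l r).L → ℂ)
        (Sum.inl i : l.L ⊕ r.L)) a := rfl
  rw [h2, single_RL, dt_zero]

theorem MM_RL {l r : Tr} (u : (nd l r).L → ℂ) (a : r.N) (j : Option l.N) :
    MM u (Sum.inr (some a)) (Sum.inl j) = 0 := by
  have h1 : MM u (Sum.inr (some a)) (Sum.inl j) =
      (nd l r).dt u (Pi.single ((nd l r).eNL (ee l r (Sum.inl j))) 1)
        (some (Sum.inr a) : Option (l.N ⊕ r.N)) := rfl
  rw [h1, ee_eL]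
  have h2 : (nd l r).dt u (Pi.single (Sum.inl (l.eNL j) : l.L ⊕ r.L) 1)
      (some (Sum.inr a) : Option (l.N ⊕ r.N)) = r.dt (uR u) (fun i : r.L =>
        (Pi.single (Sum.inl (l.eNL j) : (nd l r).L) (1 : ℂ) : (nd l r).L → ℂ)
        (Sum.inr i : l.L ⊕ r.L)) a := rfl
  rw [h2, single_LR, dt_zero]

theorem MM_RR {l r : Tr} (u : (nd l r).L → ℂ) (a : r.N) (j : Option r.N) :
    MM u (Sum.inr (some a)) (Sum.inr j) = KK r (uR u) (some a) j := by
  have h1 : MM u (Sum.inr (some a)) (Sum.inr j) =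
      (nd l r).dt u (Pi.single ((nd l r).eNL (ee l r (Sum.inr j))) 1)
        (some (Sum.inr a) : Option (l.N ⊕ r.N)) := rfl
  rw [h1, ee_eR]
  have h2 : (nd l r).dt u (Pi.single (Sum.inr (r.eNL j) : l.L ⊕ r.L) 1)
      (some (Sum.inr a) : Option (l.N ⊕ r.N)) = r.dt (uR u) (fun i : r.L =>
        (Pi.single (Sum.inr (r.eNL j) : (nd l r).L) (1 : ℂ) : (nd l r).L → ℂ)
        (Sum.inr i : l.L ⊕ r.L)) a := rfl
  rw [h2, single_RR]
  rfl

theorem KK_none (τ : Tr) (u : τ.L → ℂ) (j : Option τ.N) : KK τ u none j = 1 := rfl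

/-- the last row of a block times a number -/
theorem det_row (τ : Tr) (u : τ.L → ℂ) (c : ℂ) :
    ((KK τ u).updateRow none (fun _ => c)).det = c * (KK τ u).det := by
  have h : (fun _ : Option τ.N => c) = c • (KK τ u) none := by
    funext j
    rw [Pi.smul_apply, KK_none, smul_eq_mul, mul_one]
  rw [h, Matrix.det_updateRow_smul, Matrix.updateRow_eq_self]

theorem det_step {l r : Tr} (u : (nd l r).L → ℂ) (hL : (∑ i, uL u i) ≠ 0)
    (hW : (∑ i, uL u i + ∑ i, uR u i) ≠ 0) :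
    (MM u).det = -(∑ i, uL u i + ∑ i, uR u i)⁻¹ * ((KK l (uL u)).det * (KK r (uR u)).det) := by
  set x := ∑ i, uL u i with hx
  set y := ∑ i, uR u i with hy
  have h1 : (MM u).det = (Matrix.fromBlocks ((KK l (uL u)).updateRow none (fun _ => (x + y) / x)) 0
      (Matrix.of fun a _ => match a with
        | none => y / (x + y) ^ 2
        | some _ => 0) ((KK r (uR u)).updateRow none (fun _ => -x / (x + y) ^ 2))).det := by
    rw [← Matrix.det_updateRow_add_smul_self (MM u) (i := Sum.inl none) (j := Sum.inr none)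
      (by simp) ((x + y) ^ 2 / x)]
    congr 1
    refine Matrix.ext fun i j => ?_
    rcases i with (_ | a) | (_ | a) <;> rcases j with j | j
    · rw [Matrix.updateRow_self, Matrix.fromBlocks_apply₁₁, Matrix.updateRow_self, Pi.add_apply,
        Pi.smul_apply, MM_inl_none, MM_inr_none_inl, smul_eq_mul, ← hx, ← hy]
      field_simp
    · rw [Matrix.updateRow_self, Matrix.fromBlocks_apply₁₂, Pi.add_apply,
        Pi.smul_apply, MM_inl_none, MM_inr_none_inr, smul_eq_mul, ← hx, ← hy, Matrix.zero_apply]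
      field_simp
      ring
    · rw [Matrix.updateRow_ne (by simp), Matrix.fromBlocks_apply₁₁, Matrix.updateRow_ne (by simp),
        MM_LL]
    · rw [Matrix.updateRow_ne (by simp), Matrix.fromBlocks_apply₁₂, MM_LR, Matrix.zero_apply]
    · rw [Matrix.updateRow_ne (by simp), Matrix.fromBlocks_apply₂₁, MM_inr_none_inl, ← hx, ← hy]
      rfl
    · rw [Matrix.updateRow_ne (by simp), Matrix.fromBlocks_apply₂₂, Matrix.updateRow_self,
        MM_inr_none_inr, ← hx, ← hy]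
    · rw [Matrix.updateRow_ne (by simp), Matrix.fromBlocks_apply₂₁, MM_RL]
      rfl
    · rw [Matrix.updateRow_ne (by simp), Matrix.fromBlocks_apply₂₂, Matrix.updateRow_ne (by simp),
        MM_RR]
  rw [h1, Matrix.det_fromBlocks_zero₁₂, det_row, det_row]
  field_simp

theorem prod_nd {l r : Tr} (u : (nd l r).L → ℂ) :
    ∏ ν, ((nd l r).wt u ν)⁻¹ = (∑ i, uL u i + ∑ i, uR u i)⁻¹ *
      ((∏ ν, (l.wt (uL u) ν)⁻¹) * ∏ ν, (r.wt (uR u) ν)⁻¹) := by
  have h1 : ∏ ν, ((nd l r).wt u ν)⁻¹ =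
      ∏ ν : Option (l.N ⊕ r.N), ((nd l r).wt u (show (nd l r).N from ν))⁻¹ :=
    Fintype.prod_equiv (Equiv.refl _) _ _ fun _ => rfl
  rw [h1, Fintype.prod_option, Fintype.prod_sum_type]
  rfl

end T2Aux

open T2Aux in
theorem gT2 : S_T2 := by
  intro τ
  induction τ with
  | lf =>
    refine ⟨1, Or.inl rfl, fun u _ => ?_⟩
    have h1 : (Tr.lf.Kt u).submatrix id Tr.lf.eNL = Matrix.of fun _ _ => (1 : ℂ) := by
      refine Matrix.ext fun i j => ?_
      rcases i with _ | i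
      · rfl
      · exact Empty.elim i
    have : Unique (Option Tr.lf.N) :=
      ⟨⟨none⟩, fun a => by
        rcases a with _ | a
        · rfl
        · exact Empty.elim a⟩
    have : IsEmpty Tr.lf.N := inferInstanceAs (IsEmpty Empty)
    rw [h1, Matrix.det_unique, Matrix.of_apply, Finset.prod_of_isEmpty, mul_one]
  | nd l r ihl ihr =>
    obtain ⟨εl, hl, Hl⟩ := ihl
    obtain ⟨εr, hr, Hr⟩ := ihr
    refine ⟨-(εl * εr), ?_, fun u h => ?_⟩
    · rcases hl with rfl | rfl <;> rcases hr with rfl | rfl <;> simp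
    · obtain ⟨h1, h2, h3⟩ := h
      obtain ⟨h4, h5, h6⟩ := h3 (none : Option (l.N ⊕ r.N))
      have hL : (∑ i, uL u i) ≠ 0 := h4
      have hR : (∑ i, uR u i) ≠ 0 := h5
      have hW : (∑ i, uL u i + ∑ i, uR u i) ≠ 0 := h6
      have k1 := Hl (uL u) ⟨fun j => h1 _, hL, fun ν => h3 (some (Sum.inl ν) : Option (l.N ⊕ r.N))⟩
      have k2 := Hr (uR u) ⟨fun j => h1 _, hR, fun ν => h3 (some (Sum.inr ν) : Option (l.N ⊕ r.N))⟩
      rw [det_MM, det_step u hL hW, prod_nd]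
      have k3 : (KK l (uL u)).det = εl * ∏ ν, (l.wt (uL u) ν)⁻¹ := k1
      have k4 : (KK r (uR u)).det = εr * ∏ ν, (r.wt (uR u) ν)⁻¹ := k2
      rw [k3, k4]
      ring

end SE
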