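import Pool.Agent.Lib.SE.S2.GDefs

/-! # PROJECT SE, part S2: the Jacobian minors of the tree coordinates -/

set_option autoImplicit false

open Finset

noncomputable section

namespace SE

namespace T3Aux

theorem lr_lin (τ : Tr) (ν : τ.N) :
    (∃ φ : (τ.L → ℂ) →ₗ[ℂ] ℂ, ∀ f, φ f = (τ.lr f ν).1) ∧
      ∃ φ : (τ.L → ℂ) →ₗ[ℂ] ℂ, ∀ f, φ f = (τ.lr f ν).2 := by
  induction τ with
  | lf => exact Empty.elim ν
  | nd l r ihl ihr =>
    rcases ν with _ | ν | ν
    · refine ⟨⟨∑ j : l.L, LinearMap.proj (R := ℂ) (φ := fun _ : (Tr.nd l r).L => ℂ) (Sum.inl j),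
        fun f => ?_⟩, ⟨∑ j : r.L, LinearMap.proj (R := ℂ) (φ := fun _ : (Tr.nd l r).L => ℂ)
          (Sum.inr j), fun f => ?_⟩⟩
      · rw [LinearMap.sum_apply]
        rfl
      · rw [LinearMap.sum_apply]
        rfl
    · obtain ⟨⟨φ, hφ⟩, ⟨ψ, hψ⟩⟩ := ihl ν
      exact ⟨⟨φ ∘ₗ LinearMap.funLeft ℂ ℂ Sum.inl, fun f => hφ _⟩,
        ⟨ψ ∘ₗ LinearMap.funLeft ℂ ℂ Sum.inl, fun f => hψ _⟩⟩
    · obtain ⟨⟨φ, hφ⟩, ⟨ψ, hψ⟩⟩ := ihr ν
      exact ⟨⟨φ ∘ₗ LinearMap.funLeft ℂ ℂ Sum.inr, fun f => hφ _⟩,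
        ⟨ψ ∘ₗ LinearMap.funLeft ℂ ℂ Sum.inr, fun f => hψ _⟩⟩

theorem dt_lin (τ : Tr) (u : τ.L → ℂ) (ν : τ.N) :
    ∃ φ : (τ.L → ℂ) →ₗ[ℂ] ℂ, ∀ f, φ f = τ.dt u f ν := by
  obtain ⟨⟨φ, hφ⟩, ⟨ψ, hψ⟩⟩ := lr_lin τ ν
  refine ⟨(τ.wt u ν ^ 2)⁻¹ • (τ.wt u ν • φ - (τ.lr u ν).1 • (φ + ψ)), fun f => ?_⟩
  have h : τ.dt u f ν = ((τ.lr f ν).1 * τ.wt u ν -
      (τ.lr u ν).1 * ((τ.lr f ν).1 + (τ.lr f ν).2)) / τ.wt u ν ^ 2 := rfl
  rw [h, LinearMap.smul_apply, LinearMap.sub_apply, LinearMap.smul_apply,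
    LinearMap.smul_apply, LinearMap.add_apply, hφ f, hψ f, smul_eq_mul, smul_eq_mul, smul_eq_mul,
    div_eq_inv_mul]
  ring

theorem dt_sum (τ : Tr) (u f : τ.L → ℂ) (ν : τ.N) :
    ∑ j, τ.dt u (Pi.single j 1) ν * f j = τ.dt u f ν := by
  obtain ⟨φ, hφ⟩ := dt_lin τ u ν
  simp_rw [← hφ]
  have h2 : f = ∑ l, f l • (Pi.single l (1 : ℂ) : τ.L → ℂ) := by
    funext j
    simp [Finset.sum_apply, Pi.single_apply]
  conv_rhs => rw [h2, map_sum]
  refine Finset.sum_congr rfl fun l _ => ?_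
  rw [map_smul, smul_eq_mul, mul_comm]

/-- rows: the last one is `none` -/
def row {r : ℕ} (τ : Tr) (eN : Fin r ≃ τ.N) : Fin (r + 1) ≃ Option τ.N where
  toFun := Fin.lastCases none fun i => some (eN i)
  invFun a := match a with
    | none => Fin.last r
    | some ν => (eN.symm ν).castSucc
  left_inv i := by
    refine Fin.lastCases ?_ (fun i => ?_) i
    · simp
    · simp
  right_inv a := by
    rcases a with _ | ν
    · simp
    · simp

theorem row_last {r : ℕ} (τ : Tr) (eN : Fin r ≃ τ.N) : row τ eN (Fin.last r) = none := by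
  simp [row]

theorem row_cast {r : ℕ} (τ : Tr) (eN : Fin r ≃ τ.N) (i : Fin r) :
    row τ eN i.castSucc = some (eN i) := by
  simp [row]

/-- a matrix with last row `(0, …, 0, 1)` -/
theorem det_last_row {r : ℕ} (A : Matrix (Fin (r + 1)) (Fin (r + 1)) ℂ)
    (h0 : ∀ a : Fin r, A (Fin.last r) a.castSucc = 0) (h1 : A (Fin.last r) (Fin.last r) = 1) :
    A.det = (A.submatrix Fin.castSucc Fin.castSucc).det := by
  rw [Matrix.det_succ_row A (Fin.last r), Fin.sum_univ_castSucc]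
  rw [Finset.sum_eq_zero fun a _ => by rw [h0 a, mul_zero, zero_mul], zero_add, h1]
  have h : ((-1 : ℂ) ^ ((Fin.last r : ℕ) + (Fin.last r : ℕ))) = 1 := by
    rw [← two_mul, pow_mul]
    norm_num
  rw [h, one_mul, one_mul]
  simp only [Fin.succAbove_last]

theorem det_last_col {r : ℕ} (A : Matrix (Fin (r + 1)) (Fin (r + 1)) ℂ)
    (h0 : ∀ a : Fin r, A a.castSucc (Fin.last r) = 0) (h1 : A (Fin.last r) (Fin.last r) = 1) :
    A.det = (A.submatrix Fin.castSucc Fin.castSucc).det := by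
  have h := det_last_row A.transpose h0 h1
  rw [Matrix.det_transpose] at h
  rw [h, ← Matrix.det_transpose]
  rfl

end T3Aux

open T3Aux

theorem gT3 (h2 : S_T2) : S_T3 := by
  intro r τ eL eN
  obtain ⟨ε, hε, H⟩ := h2 τ
  -- the permutation of `Option τ.N`
  let π : Equiv.Perm (Option τ.N) := (row τ eN).symm.trans (eL.trans τ.eNL.symm)
  refine ⟨((Equiv.Perm.sign π : ℤ) : ℂ) * ε, ?_, fun u w hu hw => ?_⟩
  · rcases Int.units_eq_one_or (Equiv.Perm.sign π) with h | h <;> rcases hε with h' | h' <;>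
      rw [h, h'] <;> simp
  have hK : ((τ.Kt u).submatrix (row τ eN) eL).det =
      ((Equiv.Perm.sign π : ℤ) : ℂ) * ((τ.Kt u).submatrix id τ.eNL).det := by
    have e1 : (τ.Kt u).submatrix (row τ eN) eL =
        (((τ.Kt u).submatrix id τ.eNL).submatrix id π).submatrix (row τ eN) (row τ eN) := by
      ext i j
      simp only [Matrix.submatrix_apply, id]
      congr 1
      show eL j = τ.eNL (π (row τ eN j))
      simp [π]
    rw [e1, Matrix.det_submatrix_equiv_self, Matrix.det_permute']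
  let A : Matrix (Fin (r + 1)) (Fin (r + 1)) ℂ := Matrix.of fun j a =>
    Fin.lastCases (motive := fun _ => ℂ) (if j = Fin.last r then 1 else 0) (fun a => w a (eL j)) a
  have hA1 : ∀ j (a : Fin r), A j a.castSucc = w a (eL j) := fun j a => by
    simp [A]
  have hA2 : ∀ j, A j (Fin.last r) = if j = Fin.last r then 1 else 0 := fun j => by
    simp [A]
  have hdA : A.det = (Matrix.of fun j a : Fin r => w a (eL j.castSucc)).det := by
    rw [det_last_col A (fun a => by rw [hA2, if_neg (Fin.castSucc_ne_last a)])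
      (by rw [hA2, if_pos rfl])]
    congr 1
    ext j a
    exact hA1 j.castSucc a
  have hP1 : ∀ (i a : Fin r), ((τ.Kt u).submatrix (row τ eN) eL * A) i.castSucc a.castSucc =
      τ.dt u (w a) (eN i) := by
    intro i a
    rw [Matrix.mul_apply]
    simp only [Matrix.submatrix_apply, hA1, row_cast]
    rw [← dt_sum τ u (w a) (eN i), ← Equiv.sum_comp eL]
    rfl
  have hP2 : ∀ a : Fin r, ((τ.Kt u).submatrix (row τ eN) eL * A) (Fin.last r) a.castSucc = 0 := by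
    intro a
    rw [Matrix.mul_apply]
    simp only [Matrix.submatrix_apply, hA1, row_last]
    rw [← hw a, ← Equiv.sum_comp eL (fun j => w a j)]
    refine Finset.sum_congr rfl fun j _ => ?_
    show (1 : ℂ) * _ = _
    rw [one_mul]
  have hP3 : ((τ.Kt u).submatrix (row τ eN) eL * A) (Fin.last r) (Fin.last r) = 1 := by
    rw [Matrix.mul_apply]
    simp only [Matrix.submatrix_apply, hA2, row_last]
    rw [Finset.sum_eq_single (Fin.last r) (fun j _ hj => by rw [if_neg hj, mul_zero])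
      (fun h => absurd (Finset.mem_univ _) h), if_pos rfl, mul_one]
    rfl
  have hdP : (Matrix.of fun i a : Fin r => τ.dt u (w a) (eN i)).det =
      ((τ.Kt u).submatrix (row τ eN) eL * A).det := by
    rw [det_last_row _ hP2 hP3]
    congr 1
    ext i a
    exact (hP1 i a).symm
  rw [hdP, Matrix.det_mul, hK, H u hu, hdA]
  ring

end SE
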