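import Pool.Agent.Lib.SE.S2.GDefs

/-!
# PROJECT SE, part S2, general signature: (T4) the product formula
-/

set_option autoImplicit false

open Finset

noncomputable section

namespace SE

namespace T4Aux

open Tr

theorem sumL {M : Type} [AddCommMonoid M] (l r : Tr) (f : (Tr.nd l r).L → M) :
    ∑ j, f j = ∑ j : l.L, f (Sum.inl j) + ∑ j : r.L, f (Sum.inr j) :=
  Fintype.sum_sum_type (α₁ := l.L) (α₂ := r.L) f

theorem prodL {M : Type} [CommMonoid M] (l r : Tr) (f : (Tr.nd l r).L → M) :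
    ∏ j, f j = (∏ j : l.L, f (Sum.inl j)) * ∏ j : r.L, f (Sum.inr j) :=
  Fintype.prod_sum_type (α₁ := l.L) (α₂ := r.L) f

theorem prodN {M : Type} [CommMonoid M] (l r : Tr) (f : (Tr.nd l r).N → M) :
    ∏ ν, f ν = f none * ((∏ ν : l.N, f (some (Sum.inl ν))) * ∏ ν : r.N, f (some (Sum.inr ν))) := by
  have h1 : ∏ ν, f ν = f none * ∏ ν : l.N ⊕ r.N, f (some ν) :=
    Fintype.prod_option (α := l.N ⊕ r.N) f
  rw [h1]
  congr 1
  exact Fintype.prod_sum_type (α₁ := l.N) (α₂ := r.N) fun ν => f (some ν)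

/-- The algebra at the root. -/
theorem root (A B Pl Pr : ℂ) (p q : ℤ) (hA : A ≠ 0) (hB : B ≠ 0) (hW : A + B ≠ 0) :
    A ^ p * Pl * (B ^ q * Pr) =
      (A + B) ^ (p + q) * ((A / (A + B)) ^ p * (1 - A / (A + B)) ^ q * (Pl * Pr)) := by
  have h1 : 1 - A / (A + B) = B / (A + B) := by
    field_simp
    ring
  rw [h1, div_zpow, div_zpow, zpow_add₀ hW]
  have h2 : (A + B) ^ p ≠ 0 := zpow_ne_zero _ hW
  have h3 : (A + B) ^ q ≠ 0 := zpow_ne_zero _ hW
  field_simp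

end T4Aux

theorem gT4 : S_T4 := by
  intro τ
  induction τ with
  | lf =>
    intro u b _
    have h1 : ∏ j : Tr.lf.L, u j ^ b j = u () ^ b () := Fintype.prod_unique (ι := Unit) fun j => u j ^ b j
    have h2 : ∑ j : Tr.lf.L, u j = u () := Fintype.sum_unique (ι := Unit) u
    have h3 : ∑ j : Tr.lf.L, b j = b () := Fintype.sum_unique (ι := Unit) b
    have h4 : ∏ ν : Tr.lf.N, Tr.tt Tr.lf u ν ^ (Tr.lr Tr.lf b ν).1 *
        (1 - Tr.tt Tr.lf u ν) ^ (Tr.lr Tr.lf b ν).2 = 1 :=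
      Fintype.prod_empty (ι := Empty) _
    rw [h1, h2, h3, h4, mul_one]
  | nd l r ihl ihr =>
    intro u b hu
    obtain ⟨hu1, hu2, hu3⟩ := hu
    have hn := hu3 none
    have hl := ihl (fun j => u (Sum.inl j)) (fun j => b (Sum.inl j))
      ⟨fun j => hu1 (Sum.inl j), hn.1, fun ν => hu3 (some (Sum.inl ν))⟩
    have hr := ihr (fun j => u (Sum.inr j)) (fun j => b (Sum.inr j))
      ⟨fun j => hu1 (Sum.inr j), hn.2.1, fun ν => hu3 (some (Sum.inr ν))⟩
    rw [T4Aux.prodL, T4Aux.sumL, T4Aux.sumL, T4Aux.prodN, hl, hr]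
    exact T4Aux.root _ _ _ _ _ _ hn.1 hn.2.1 hn.2.2

end SE
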