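import Pool.Agent.Lib.SE.S2.GDefs

/-!
# PROJECT SE, part S2, general signature: (T5) integer parts
-/

set_option autoImplicit false

open Finset

noncomputable section

namespace SE

namespace T5Aux

private theorem sumL {M : Type} [AddCommMonoid M] (l r : Tr) (f : (Tr.nd l r).L → M) :
    ∑ j, f j = ∑ j : l.L, f (Sum.inl j) + ∑ j : r.L, f (Sum.inr j) :=
  Fintype.sum_sum_type (α₁ := l.L) (α₂ := r.L) f

private theorem prodN {M : Type} [CommMonoid M] (l r : Tr) (f : (Tr.nd l r).N → M) :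
    ∏ ν, f ν = f none * ((∏ ν : l.N, f (some (Sum.inl ν))) * ∏ ν : r.N, f (some (Sum.inr ν))) := by
  have h1 : ∏ ν, f ν = f none * ∏ ν : l.N ⊕ r.N, f (some ν) :=
    Fintype.prod_option (α := l.N ⊕ r.N) f
  rw [h1]
  congr 1
  exact Fintype.prod_sum_type (α₁ := l.N) (α₂ := r.N) fun ν => f (some ν)

/-- The algebra at the root. -/
private theorem root (A B Pl Pr : ℂ) (a b m : ℕ) (hm : 0 < m) (hW : A + B ≠ 0) :
    (A + B) ^ ((a + b) / m) * ((A / (A + B)) ^ (a / m) * (1 - A / (A + B)) ^ (b / m) * (Pl * Pr)) =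
      (if m ≤ a % m + b % m then A + B else 1) * ((A ^ (a / m) * Pl) * (B ^ (b / m) * Pr)) := by
  have h1 : 1 - A / (A + B) = B / (A + B) := by
    field_simp
    ring
  have h2 : (A + B) ^ (a / m) ≠ 0 := pow_ne_zero _ hW
  have h3 : (A + B) ^ (b / m) ≠ 0 := pow_ne_zero _ hW
  rw [h1, div_pow, div_pow, Nat.add_div hm, pow_add, pow_add]
  split_ifs
  · rw [pow_one]
    field_simp
  · rw [pow_zero]
    field_simp

end T5Aux

theorem gT5 : S_T5 := by
  intro τ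
  induction τ with
  | lf =>
    intro u n m _ hn _
    have h2 : ∑ j : Tr.lf.L, u j = u () := Fintype.sum_unique (ι := Unit) u
    have h3 : ∑ j : Tr.lf.L, n j = n () := Fintype.sum_unique (ι := Unit) n
    have h4 : ∏ ν : Tr.lf.N, Tr.tt Tr.lf u ν ^ ((Tr.lr Tr.lf n ν).1 / m) *
        (1 - Tr.tt Tr.lf u ν) ^ ((Tr.lr Tr.lf n ν).2 / m) = 1 :=
      Fintype.prod_empty (ι := Empty) _
    have h5 : (∏ ν : Tr.lf.N, if m ≤ (Tr.lr Tr.lf n ν).1 % m + (Tr.lr Tr.lf n ν).2 % m then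
        Tr.wt Tr.lf u ν else 1) = 1 :=
      Fintype.prod_empty (ι := Empty) _
    rw [h2, h3, h4, h5, Nat.div_eq_of_lt (hn ()), pow_zero, mul_one]
  | nd l r ihl ihr =>
    intro u n m hm hn hu
    obtain ⟨hu1, hu2, hu3⟩ := hu
    have hn0 := hu3 none
    have hl := ihl (fun j => u (Sum.inl j)) (fun j => n (Sum.inl j)) m hm (fun j => hn _)
      ⟨fun j => hu1 (Sum.inl j), hn0.1, fun ν => hu3 (some (Sum.inl ν))⟩
    have hr := ihr (fun j => u (Sum.inr j)) (fun j => n (Sum.inr j)) m hm (fun j => hn _)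
      ⟨fun j => hu1 (Sum.inr j), hn0.2.1, fun ν => hu3 (some (Sum.inr ν))⟩
    rw [T5Aux.sumL, T5Aux.sumL, T5Aux.prodN, T5Aux.prodN]
    have h := T5Aux.root (∑ j, u (Sum.inl j)) (∑ j, u (Sum.inr j))
      (∏ ν, Tr.tt l (fun j => u (Sum.inl j)) ν ^ ((Tr.lr l (fun j => n (Sum.inl j)) ν).1 / m) *
        (1 - Tr.tt l (fun j => u (Sum.inl j)) ν) ^ ((Tr.lr l (fun j => n (Sum.inl j)) ν).2 / m))
      (∏ ν, Tr.tt r (fun j => u (Sum.inr j)) ν ^ ((Tr.lr r (fun j => n (Sum.inr j)) ν).1 / m) *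
        (1 - Tr.tt r (fun j => u (Sum.inr j)) ν) ^ ((Tr.lr r (fun j => n (Sum.inr j)) ν).2 / m))
      (∑ j, n (Sum.inl j)) (∑ j, n (Sum.inr j)) m hm hn0.2.2
    rw [hl, hr] at h
    exact h

end SE
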