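import Pool.Agent.Lib.SE.S2.GDefs

/-!
# PROJECT SE, part S2, module T6: the number of nodes of type `Q`
-/

set_option autoImplicit false

open Finset

noncomputable section

namespace SE

namespace T6Aux

private lemma sum_L {M : Type} [AddCommMonoid M] (l r : Tr) (f : (Tr.nd l r).L → M) :
    ∑ j, f j = ∑ j : l.L, f (Sum.inl j) + ∑ j : r.L, f (Sum.inr j) :=
  Fintype.sum_sum_type (fun j : l.L ⊕ r.L => f j)

private lemma sum_N {M : Type} [AddCommMonoid M] (l r : Tr) (f : (Tr.nd l r).N → M) :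
    ∑ ν, f ν = f none + (∑ ν : l.N, f (some (Sum.inl ν)) + ∑ ν : r.N, f (some (Sum.inr ν))) := by
  have h1 : ∑ ν, f ν = f none + ∑ x : l.N ⊕ r.N, f (some x) :=
    Fintype.sum_option (fun x : Option (l.N ⊕ r.N) => f x)
  rw [h1, Fintype.sum_sum_type]

private lemma main (m : ℕ) (hm : 0 < m) : ∀ (τ : Tr) (n : τ.L → ℕ), (∀ j, n j < m) →
    (∑ j, n j) / m = ∑ ν, (if m ≤ (τ.lr n ν).1 % m + (τ.lr n ν).2 % m then 1 else 0)
  | Tr.lf, n, hn => by
    have h1 : ∑ j, n j = n () := Fintype.sum_unique (fun j : Unit => n j)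
    have h2 : ∑ ν : Tr.lf.N, (if m ≤ (Tr.lf.lr n ν).1 % m + (Tr.lf.lr n ν).2 % m then 1 else 0) = 0 :=
      Finset.sum_eq_zero fun ν _ => Empty.elim ν
    rw [h1, h2]
    exact Nat.div_eq_of_lt (hn ())
  | Tr.nd l r, n, hn => by
    rw [sum_L, sum_N, Nat.add_div hm, main m hm l (fun j => n (Sum.inl j)) fun j => hn _,
      main m hm r (fun j => n (Sum.inr j)) fun j => hn _]
    change _ = (if m ≤ (∑ j, n (Sum.inl j)) % m + (∑ j, n (Sum.inr j)) % m then 1 else 0) +
      (∑ ν, (if m ≤ (l.lr (fun j => n (Sum.inl j)) ν).1 % m +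
          (l.lr (fun j => n (Sum.inl j)) ν).2 % m then 1 else 0) +
        ∑ ν, (if m ≤ (r.lr (fun j => n (Sum.inr j)) ν).1 % m +
          (r.lr (fun j => n (Sum.inr j)) ν).2 % m then 1 else 0))
    ring

end T6Aux

theorem gT6 : S_T6 := by
  intro τ n m hm hn
  rw [T6Aux.main m hm τ n hn, Finset.card_filter]

end SE
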