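import Pool.Agent.Lib.SE.S2.GDefs

/-!
# PROJECT SE, part S2: existence of good trees (T7)
-/

set_option autoImplicit false

open Finset

noncomputable section

namespace SE

namespace T7Aux

/-- The conditions at a node. -/
private def Gd (m : ℕ) (p : ℤ × ℤ) : Prop :=
  ¬ (m : ℤ) ∣ p.1 ∧ ¬ (m : ℤ) ∣ p.2 ∧ ¬ (m : ℤ) ∣ p.1 + p.2

/-- There is a good tree. -/
private def P (m : ℕ) {α : Type} (b : α → ℤ) : Prop :=
  ∃ (τ : Tr) (e : α ≃ τ.L), ∀ ν, Gd m (τ.lr (b ∘ e.symm) ν)

private theorem P_lf (m : ℕ) {α : Type} (b : α → ℤ) (e : α ≃ Unit) : P m b :=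
  ⟨Tr.lf, e, fun ν => Empty.elim ν⟩

private theorem P_nd (m : ℕ) {α β γ : Type} [Fintype α] [Fintype β] (b : γ → ℤ) (f : γ ≃ α ⊕ β)
    (h1 : P m fun x => b (f.symm (Sum.inl x))) (h2 : P m fun x => b (f.symm (Sum.inr x)))
    (h3 : Gd m (∑ x, b (f.symm (Sum.inl x)), ∑ x, b (f.symm (Sum.inr x)))) : P m b := by
  obtain ⟨τ, e, he⟩ := h1
  obtain ⟨τ', e', he'⟩ := h2
  refine ⟨Tr.nd τ τ', f.trans (Equiv.sumCongr e e'), fun ν => ?_⟩
  rcases ν with _ | ν | ν
  · have h4 : ∑ j : τ.L, b (f.symm (Sum.inl (e.symm j))) = ∑ x, b (f.symm (Sum.inl x)) :=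
      Equiv.sum_comp e.symm (fun x => b (f.symm (Sum.inl x)))
    have h5 : ∑ j : τ'.L, b (f.symm (Sum.inr (e'.symm j))) = ∑ x, b (f.symm (Sum.inr x)) :=
      Equiv.sum_comp e'.symm (fun x => b (f.symm (Sum.inr x)))
    rw [← h4, ← h5] at h3
    exact h3
  · exact he ν
  · exact he' ν

/-- The claim for all sets with `n` elements. -/
private def Cl (m n : ℕ) : Prop :=
  ∀ (α : Type) [Fintype α] (b : α → ℤ), Fintype.card α = n → (∀ j, ¬ (m : ℤ) ∣ b j) →
    ¬ (m : ℤ) ∣ ∑ j, b j → (n = 1 ∨ ∃ j, ¬ (m : ℤ) ∣ 2 * b j) → P m b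

private theorem split (m n : ℕ) (ih : ∀ k < n, Cl m k) (α : Type) [Fintype α] [DecidableEq α]
    (b : α → ℤ) (hn : Fintype.card α = n) (h1 : ∀ j, ¬ (m : ℤ) ∣ b j)
    (h2 : ¬ (m : ℤ) ∣ ∑ j, b j) (s : Finset α) (hs : s.Nonempty) (hs' : sᶜ.Nonempty)
    (h3 : ¬ (m : ℤ) ∣ ∑ j ∈ s, b j) (h4 : ¬ (m : ℤ) ∣ ∑ j ∈ sᶜ, b j)
    (h5 : s.card = 1 ∨ ∃ j ∈ s, ¬ (m : ℤ) ∣ 2 * b j)
    (h6 : sᶜ.card = 1 ∨ ∃ j ∈ sᶜ, ¬ (m : ℤ) ∣ 2 * b j) : P m b := by
  have hc : s.card + sᶜ.card = n := by rw [Finset.card_add_card_compl, hn]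
  have hs1 := hs.card_pos
  have hs2 := hs'.card_pos
  have e1 : ∑ x : {x // x ∈ s}, b x = ∑ j ∈ s, b j := Finset.sum_coe_sort s b
  have e2 : ∑ j ∈ sᶜ, b j = ∑ x : {x // ¬ x ∈ s}, b x :=
    Finset.sum_subtype sᶜ (fun x => Finset.mem_compl) b
  have c1 : Fintype.card {x // x ∈ s} = s.card := Fintype.card_coe s
  have c2 : Fintype.card {x // ¬ x ∈ s} = sᶜ.card :=
    (Fintype.card_of_subtype sᶜ fun x => Finset.mem_compl)
  refine P_nd m b (Equiv.sumCompl fun x => x ∈ s).symm ?_ ?_ ?_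
  · refine ih s.card (by omega) {x // x ∈ s} _ c1 (fun j => h1 _) ?_ ?_
    · change ¬ (m : ℤ) ∣ ∑ x : {x // x ∈ s}, b x
      rw [e1]
      exact h3
    · rcases h5 with h5 | ⟨j, hj, hj'⟩
      · exact Or.inl h5
      · exact Or.inr ⟨⟨j, hj⟩, hj'⟩
  · refine ih sᶜ.card (by omega) {x // ¬ x ∈ s} _ c2 (fun j => h1 _) ?_ ?_
    · change ¬ (m : ℤ) ∣ ∑ x : {x // ¬ x ∈ s}, b x
      rw [← e2]
      exact h4
    · rcases h6 with h6 | ⟨j, hj, hj'⟩
      · exact Or.inl h6
      · exact Or.inr ⟨⟨j, Finset.mem_compl.1 hj⟩, hj'⟩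
  · change Gd m (∑ x : {x // x ∈ s}, b x, ∑ x : {x // ¬ x ∈ s}, b x)
    rw [e1, ← e2]
    refine ⟨h3, h4, ?_⟩
    change ¬ (m : ℤ) ∣ ∑ j ∈ s, b j + ∑ j ∈ sᶜ, b j
    rw [Finset.sum_add_sum_compl]
    exact h2

/-- The element of order `2` is unique. -/
private theorem uniq2 {m x y : ℤ} (hx : m ∣ 2 * x) (hy : m ∣ 2 * y) (hx' : ¬ m ∣ x)
    (hy' : ¬ m ∣ y) : m ∣ x - y := by
  obtain ⟨a, ha⟩ := hx
  obtain ⟨c, hc⟩ := hy
  rcases Int.even_or_odd' m with ⟨k, rfl | rfl⟩
  · rcases Int.even_or_odd' a with ⟨a', rfl | rfl⟩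
    · exact absurd ⟨a', by linarith⟩ hx'
    · rcases Int.even_or_odd' c with ⟨c', rfl | rfl⟩
      · exact absurd ⟨c', by linarith⟩ hy'
      · exact ⟨a' - c', by linarith⟩
  · rcases Int.even_or_odd' a with ⟨a', rfl | rfl⟩
    · exact absurd ⟨a', by linarith⟩ hx'
    · exfalso
      have h1 : 2 * (x - (2 * k * a' + k + a')) = 1 := by linarith
      omega

private theorem main (m n : ℕ) : Cl m n := by
  classical
  induction n using Nat.strong_induction_on with
  | _ n ih =>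
    intro α _ b hn h1 h2 h3
    rcases Nat.lt_or_ge n 2 with h4 | h4
    · interval_cases n
      · exfalso
        have : IsEmpty α := Fintype.card_eq_zero_iff.1 hn
        apply h2
        rw [Finset.univ_eq_empty, Finset.sum_empty]
        exact dvd_zero _
      · exact P_lf m b (Fintype.equivOfCardEq (by rw [hn, Fintype.card_unit]))
    · obtain ⟨j₀, hj₀⟩ : ∃ j, ¬ (m : ℤ) ∣ 2 * b j := by
        rcases h3 with h3 | h3
        · omega
        · exact h3
      have hcomp : ∀ i : α, ({i}ᶜ : Finset α).card = n - 1 := by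
        intro i
        rw [Finset.card_compl, Finset.card_singleton, hn]
      have hsum : ∀ i : α, b i + ∑ j ∈ ({i}ᶜ : Finset α), b j = ∑ j, b j := by
        intro i
        rw [← Finset.sum_add_sum_compl ({i} : Finset α), Finset.sum_singleton]
      have hone : ∀ i : α, ¬ (m : ℤ) ∣ (∑ j, b j) - b i →
          (({i}ᶜ : Finset α).card = 1 ∨ ∃ j ∈ ({i}ᶜ : Finset α), ¬ (m : ℤ) ∣ 2 * b j) →
          P m b := by
        intro i hi hi'
        refine split m n ih α b hn h1 h2 {i} (Finset.singleton_nonempty i) ?_ ?_ ?_ ?_ hi'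
        · rw [← Finset.card_pos, hcomp]
          omega
        · rw [Finset.sum_singleton]
          exact h1 i
        · rw [← hsum i, add_sub_cancel_left] at hi
          exact hi
        · exact Or.inl (Finset.card_singleton i)
      by_cases hA : ∃ i, ¬ (m : ℤ) ∣ (∑ j, b j) - b i
      · obtain ⟨i, hi⟩ := hA
        by_cases hB : ({i}ᶜ : Finset α).card = 1 ∨ ∃ j ∈ ({i}ᶜ : Finset α), ¬ (m : ℤ) ∣ 2 * b j
        · exact hone i hi hB
        · -- the exceptional case
          push Not at hB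
          obtain ⟨hB1, hB2⟩ := hB
          have hij : j₀ = i := by
            by_contra hc
            exact hj₀ (hB2 j₀ (by simpa using hc))
          subst hij
          obtain ⟨i', hi'⟩ : ({j₀}ᶜ : Finset α).Nonempty := by
            rw [← Finset.card_pos, hcomp]
            omega
          have hne : j₀ ≠ i' := by
            intro hc
            rw [hc] at hi'
            simp at hi'
          rw [← hsum j₀, add_sub_cancel_left] at hi
          have h5 : (m : ℤ) ∣ 2 * ∑ j ∈ ({j₀}ᶜ : Finset α), b j := by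
            rw [Finset.mul_sum]
            exact Finset.dvd_sum hB2
          have h6 := uniq2 h5 (hB2 i' hi') hi (h1 i')
          refine hone i' ?_ (Or.inr ⟨j₀, by simpa using hne, hj₀⟩)
          intro h7
          rw [← hsum j₀, add_sub_assoc] at h7
          exact h1 j₀ ((dvd_add_left h6).1 h7)
      · -- all `b_i` are equal to the sum
        push Not at hA
        have h5 : ∀ i, (m : ℤ) ∣ b i - b j₀ := fun i => by
          have h6 := dvd_sub (hA j₀) (hA i)
          rwa [sub_sub_sub_cancel_left] at h6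
        have h2b : ∀ i, ¬ (m : ℤ) ∣ 2 * b i := by
          intro i hi
          have h6 := dvd_sub hi (Dvd.dvd.mul_left (h5 i) 2)
          rw [← mul_sub, sub_sub_cancel] at h6
          exact hj₀ h6
        obtain ⟨i', hi'⟩ : ({j₀}ᶜ : Finset α).Nonempty := by
          rw [← Finset.card_pos, hcomp]
          omega
        have hne : j₀ ≠ i' := by
          intro hc
          rw [hc] at hi'
          simp at hi'
        have hpair : ∑ j ∈ ({j₀, i'} : Finset α), b j = b j₀ + b i' := Finset.sum_pair hne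
        have hrest : b j₀ + b i' + ∑ j ∈ ({j₀, i'}ᶜ : Finset α), b j = ∑ j, b j := by
          rw [← hpair, Finset.sum_add_sum_compl]
        -- the sum of the rest is `- b j₀`
        have hr : ¬ (m : ℤ) ∣ ∑ j ∈ ({j₀, i'}ᶜ : Finset α), b j := by
          intro h6
          have h7 := hA j₀
          rw [← hrest] at h7
          have h8 : (m : ℤ) ∣ b i' := by
            have h9 := dvd_sub h7 h6
            have h10 : b j₀ + b i' + ∑ j ∈ ({j₀, i'}ᶜ : Finset α), b j - b j₀ -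
                ∑ j ∈ ({j₀, i'}ᶜ : Finset α), b j = b i' := by ring
            rwa [h10] at h9
          exact h1 i' h8
        have hcn : ({j₀, i'}ᶜ : Finset α).Nonempty := by
          rw [Finset.nonempty_iff_ne_empty]
          intro hc
          rw [hc, Finset.sum_empty] at hr
          exact hr (dvd_zero _)
        obtain ⟨i₂, hi₂⟩ := hcn
        refine split m n ih α b hn h1 h2 {j₀, i'} ⟨j₀, by simp⟩ ⟨i₂, hi₂⟩ ?_ hr
          (Or.inr ⟨j₀, by simp, hj₀⟩) (Or.inr ⟨i₂, hi₂, h2b i₂⟩)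
        rw [hpair]
        intro h6
        have h7 := dvd_sub h6 (h5 i')
        have h8 : b j₀ + b i' - (b i' - b j₀) = 2 * b j₀ := by ring
        rw [h8] at h7
        exact hj₀ h7

end T7Aux

open T7Aux

theorem gT7 : S_T7 := by
  intro m r b h1 h2 h3
  exact main m (r + 1) (Fin (r + 1)) b (Fintype.card_fin _) h1 h2 (Or.inr h3)

end SE
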