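import Pool.Agent.Lib.SE.S2.GVal

/-!
# PROJECT SE, G1: the tree exists (helper2)
-/

set_option autoImplicit false

open Finset

noncomputable section

namespace SE

namespace TREAux

theorem lr_cast : ∀ (τ : Tr) (n : τ.L → ℕ) (ν : τ.N),
    τ.lr (fun l => (n l : ℤ)) ν = (((τ.lr n ν).1 : ℤ), ((τ.lr n ν).2 : ℤ))
  | Tr.lf, _, ν => Empty.elim ν
  | Tr.nd l r, n, none => by
    change (∑ j, ((n (Sum.inl j) : ℕ) : ℤ), ∑ j, ((n (Sum.inr j) : ℕ) : ℤ)) =
      (((∑ j, n (Sum.inl j) : ℕ) : ℤ), ((∑ j, n (Sum.inr j) : ℕ) : ℤ))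
    rw [Nat.cast_sum, Nat.cast_sum]
  | Tr.nd l r, n, some (Sum.inl ν) => lr_cast l (fun j => n (Sum.inl j)) ν
  | Tr.nd l r, n, some (Sum.inr ν) => lr_cast r (fun j => n (Sum.inr j)) ν

end TREAux

open TREAux in
theorem gTRE (h7 : S_T7) : S_TRE := by
  intro m r s b hc
  obtain ⟨hm, -, hb, hs, hd⟩ := hc
  have h1 : ∀ j, ¬ (m : ℤ) ∣ ((b j : ℕ) : ℤ) := fun j h => hb j (Int.natCast_dvd_natCast.1 h)
  have h2 : ¬ (m : ℤ) ∣ ∑ j, ((b j : ℕ) : ℤ) := fun h => hs (by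
    rw [← Nat.cast_sum] at h
    exact Int.natCast_dvd_natCast.1 h)
  have h3 : ∃ j, ¬ (m : ℤ) ∣ 2 * ((b j : ℕ) : ℤ) := by
    by_contra hcon
    push Not at hcon
    have h4 : ∀ j, m ∣ 2 * b j := fun j => by
      have h5 := hcon j
      exact_mod_cast h5
    rcases Nat.even_or_odd' m with ⟨k, hk | hk⟩
    · have h6 : k = 1 := by
        refine hd k ⟨2, by omega⟩ fun j => ?_
        have h7 := h4 j
        rw [hk] at h7
        exact Nat.dvd_of_mul_dvd_mul_left (by norm_num) h7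
      omega
    · have h6 : Nat.Coprime m 2 := Odd.coprime_two_right ⟨k, hk⟩
      exact hb 0 (h6.dvd_of_dvd_mul_left (h4 0))
  obtain ⟨τ, e, he⟩ := h7 m r (fun j => ((b j : ℕ) : ℤ)) h1 h2 h3
  have h8 : Fintype.card τ.N = r := by
    have h9 := Fintype.card_congr (τ.eNL.trans e.symm)
    rw [Fintype.card_option, Fintype.card_fin] at h9
    omega
  refine ⟨τ, e, (Fintype.equivFinOfCardEq h8).symm, fun ν => ?_⟩
  have h10 := he ν
  have h11 : τ.lr ((fun j => ((b j : ℕ) : ℤ)) ∘ e.symm) ν =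
      ((cL τ e b ν : ℤ), (cR τ e b ν : ℤ)) := lr_cast τ (fun l => b (e.symm l)) ν
  unfold Tr.wt at h10
  rw [h11] at h10
  exact ⟨fun h => h10.1 (Int.natCast_dvd_natCast.2 h), fun h => h10.2.1 (Int.natCast_dvd_natCast.2 h),
    fun h => h10.2.2 (by
      have h12 := Int.natCast_dvd_natCast.2 h
      rw [Nat.cast_add] at h12
      exact h12)⟩

end SE
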