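import Pool.Agent.Lib.SE.S2.GVal

/-!
# PROJECT SE, G1, module CNT: counting of the differentials and of the nodes
-/

set_option autoImplicit false

open Finset

noncomputable section

namespace SE

namespace CNTAux

/-- `((m - u) c) % m = m - (u c) % m` -/
theorem mod_sub {m u c : ℕ} (hu : u < m) (h : ¬ m ∣ u * c) :
    ((m - u) * c) % m + (u * c) % m = m := by
  have hm : 0 < m := by omega
  have h1 : 0 < (u * c) % m := by
    rcases Nat.eq_zero_or_pos ((u * c) % m) with h0 | h0
    · exact absurd (Nat.dvd_of_mod_eq_zero h0) h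
    · exact h0
  have h2 : (u * c) % m < m := Nat.mod_lt _ hm
  have h3 : ((m - u) * c) % m < m := Nat.mod_lt _ hm
  have h4 : (((m - u) * c) % m + (u * c) % m) % m = 0 := by
    rw [← Nat.add_mod, ← Nat.add_mul, Nat.sub_add_cancel hu.le]
    exact Nat.mul_mod_right m c
  by_contra h5
  rcases Nat.lt_or_ge (((m - u) * c) % m + (u * c) % m) m with h6 | h6
  · rw [Nat.mod_eq_of_lt h6] at h4
    omega
  · rw [Nat.mod_eq_sub_mod h6, Nat.mod_eq_of_lt (by omega)] at h4
    omega

/-- sums of residues at the nodes -/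
theorem lr_mod (m u : ℕ) (τ : Tr) : ∀ (c : τ.L → ℕ) (ν : τ.N),
    (τ.lr (fun l => (u * c l) % m) ν).1 % m = (u * (τ.lr c ν).1) % m ∧
      (τ.lr (fun l => (u * c l) % m) ν).2 % m = (u * (τ.lr c ν).2) % m := by
  induction τ with
  | lf =>
    intro c ν
    exact Empty.elim ν
  | nd l r ihl ihr =>
    intro c ν
    rcases ν with _ | ν | ν
    · constructor
      · change (∑ j, (u * c (Sum.inl j)) % m) % m = (u * ∑ j, c (Sum.inl j)) % m
        rw [Finset.mul_sum, ← Finset.sum_nat_mod]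
      · change (∑ j, (u * c (Sum.inr j)) % m) % m = (u * ∑ j, c (Sum.inr j)) % m
        rw [Finset.mul_sum, ← Finset.sum_nat_mod]
    · exact ihl (fun j => c (Sum.inl j)) ν
    · exact ihr (fun j => c (Sum.inr j)) ν

variable {r : ℕ}

/-- the number of the nodes which are not of type `P` -/
theorem count (h6 : S_T6) {m : ℕ} (hm : 0 < m) (τ : Tr) (eL : Fin (r + 1) ≃ τ.L)
    (b : Fin (r + 1) → ℕ) (u : ℕ) {p q : ℕ} (e : Fin p ⊕ Fin q ≃ τ.N)
    (h1 : ∀ i, isP m τ eL b u (e (Sum.inl i))) (h2 : ∀ i, ¬ isP m τ eL b u (e (Sum.inr i))) :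
    (∑ j, (u * b j) % m) / m = q := by
  have h3 := h6 τ (fun l => (u * b (eL.symm l)) % m) m hm (fun j => Nat.mod_lt _ hm)
  have h4 : ∑ l, (u * b (eL.symm l)) % m = ∑ j, (u * b j) % m :=
    Equiv.sum_comp eL.symm (fun j => (u * b j) % m)
  rw [h4] at h3
  rw [h3]
  have h5 : ∀ ν, (m ≤ (τ.lr (fun l => (u * b (eL.symm l)) % m) ν).1 % m +
      (τ.lr (fun l => (u * b (eL.symm l)) % m) ν).2 % m) ↔ ¬ isP m τ eL b u ν := by
    intro ν
    obtain ⟨ha, hb⟩ := lr_mod m u τ (fun l => b (eL.symm l)) ν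
    rw [ha, hb]
    unfold isP cL cR
    exact not_lt.symm
  have h7 : (univ.filter fun ν => m ≤ (τ.lr (fun l => (u * b (eL.symm l)) % m) ν).1 % m +
      (τ.lr (fun l => (u * b (eL.symm l)) % m) ν).2 % m) =
      (univ : Finset (Fin q)).map ⟨fun i => e (Sum.inr i), fun i j h =>
        Sum.inr.inj (e.injective h)⟩ := by
    ext ν
    rw [Finset.mem_filter, h5, Finset.mem_map]
    constructor
    · rintro ⟨_, hν⟩
      obtain ⟨k, rfl⟩ := e.surjective ν
      rcases k with i | i
      · exact absurd (h1 i) hν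
      · exact ⟨i, Finset.mem_univ i, rfl⟩
    · rintro ⟨i, _, rfl⟩
      exact ⟨Finset.mem_univ _, h2 i⟩
  rw [h7, Finset.card_map, Finset.card_univ, Fintype.card_fin]

/-- the number of the nodes -/
theorem card_nodes (τ : Tr) (eL : Fin (r + 1) ≃ τ.L) {p q : ℕ} (e : Fin p ⊕ Fin q ≃ τ.N) :
    p + q = r := by
  have h1 : Fintype.card (Option τ.N) = Fintype.card τ.L := Fintype.card_congr τ.eNL
  have h2 : Fintype.card (Fin (r + 1)) = Fintype.card τ.L := Fintype.card_congr eL
  have h3 : Fintype.card (Fin p ⊕ Fin q) = Fintype.card τ.N := Fintype.card_congr e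
  rw [Fintype.card_option] at h1
  rw [Fintype.card_fin] at h2
  rw [Fintype.card_sum, Fintype.card_fin, Fintype.card_fin] at h3
  omega

end CNTAux

open CNTAux

/-- **(CNT)** -/
theorem gCNT (h6 : S_T6) : S_CNT := by
  intro m r s b hcov τ eL hgt u hum hcop p q e hP hQ
  obtain ⟨hm3, _, hbj, hbs, _⟩ := hcov
  have hm : 0 < m := by omega
  have hnd : ∀ c : ℕ, ¬ m ∣ c → ¬ m ∣ u * c := by
    intro c hc h
    exact hc ((Nat.Coprime.symm hcop).dvd_of_dvd_mul_left h)
  have hpq := card_nodes τ eL e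
  have hq := count h6 hm τ eL b u e hP hQ
  obtain ⟨S, hS⟩ : ∃ S, S = ∑ j, (u * b j) % m := ⟨_, rfl⟩
  rw [← hS] at hq
  have hSnd : S % m ≠ 0 := by
    intro h
    rw [hS, ← Finset.sum_nat_mod, ← Finset.mul_sum] at h
    exact hnd _ hbs (Nat.dvd_of_mod_eq_zero h)
  have hSlt : S % m < m := Nat.mod_lt _ hm
  have hSdec : m * q + S % m = S := by
    rw [← hq]
    exact Nat.div_add_mod S m
  have hS' : ∑ j, ((m - u) * b j) % m + S = m * (r + 1) := by
    rw [hS, ← Finset.sum_add_distrib]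
    rw [Finset.sum_congr rfl fun j _ => mod_sub hum (hnd _ (hbj j))]
    rw [Finset.sum_const, Finset.card_univ, Fintype.card_fin, smul_eq_mul, mul_comm]
  refine ⟨?_, ?_, ?_⟩
  · intro i
    rw [← hS]
    constructor
    · intro h
      have h1 : m * (i + q) < m * r := by
        rw [Nat.mul_add]
        omega
      have h2 := Nat.lt_of_mul_lt_mul_left h1
      omega
    · intro h
      have h1 : m * (i + q + 1) ≤ m * r := Nat.mul_le_mul_left _ (by omega)
      rw [Nat.mul_add, Nat.mul_add, Nat.mul_one] at h1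
      omega
  · intro i
    rw [Nat.mul_add, Nat.mul_one] at hS'
    constructor
    · intro h
      have h1 : m * i < m * q := by omega
      exact Nat.lt_of_mul_lt_mul_left h1
    · intro h
      have h1 : m * (i + 1) ≤ m * q := Nat.mul_le_mul_left _ (by omega)
      rw [Nat.mul_add, Nat.mul_one] at h1
      omega
  · intro ν
    obtain ⟨g1, g2, g3⟩ := hgt ν
    have h1 := mod_sub hum (hnd _ g1)
    have h2 := mod_sub hum (hnd _ g2)
    have h3 : (u * cL τ eL b ν) % m + (u * cR τ eL b ν) % m ≠ m := by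
      intro h
      apply hnd _ g3
      apply Nat.dvd_of_mod_eq_zero
      rw [Nat.mul_add, Nat.add_mod, h, Nat.mod_self]
    unfold isP
    omega

end SE
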