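import Pool.Agent.Lib.SE.S2.GVal

/-!
# PROJECT SE, G1: module VAL (helper81)
-/

set_option autoImplicit false

open Finset

noncomputable section

namespace SE

open SE.S4

namespace VALAux

theorem ediv_add {m u c : ℕ} (hm : 0 < m) (hu : u < m) (h : ¬ m ∣ u * c) :
    (m - u) * c / m + u * c / m + 1 = c := by
  have h1 : (m - u) * c + u * c = m * c := by
    rw [← Nat.add_mul, Nat.sub_add_cancel hu.le]
  have e1 := Nat.div_add_mod ((m - u) * c) m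
  have e2 := Nat.div_add_mod (u * c) m
  have r1 := Nat.mod_lt ((m - u) * c) hm
  have r2 := Nat.mod_lt (u * c) hm
  have r3 : 0 < u * c % m := Nat.pos_of_ne_zero fun h0 => h (Nat.dvd_of_mod_eq_zero h0)
  set A := (m - u) * c / m
  set B := u * c / m
  set α := (m - u) * c % m
  set β := u * c % m
  have h2 : m * (A + B) + (α + β) = m * c := by
    rw [← h1, ← e1, ← e2]; ring
  have h3 : A + B < c := by
    by_contra hc
    push Not at hc
    have := Nat.mul_le_mul_left m hc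
    omega
  have h4 : c < A + B + 2 := by
    by_contra hc
    push Not at hc
    have h5 := Nat.mul_le_mul_left m hc
    have h6 : m * (A + B + 2) = m * (A + B) + 2 * m := by ring
    omega
  omega

theorem not_dvd {m u c : ℕ} (hu : u.Coprime m) (h : ¬ m ∣ c) : ¬ m ∣ u * c := fun h1 =>
  h ((Nat.Coprime.symm hu).dvd_of_dvd_mul_left h1)

theorem Wf_mul {m c d u : ℕ} (hm : 0 < m) (hu : u < m) (hc : ¬ m ∣ u * c) (hd : ¬ m ∣ u * d)
    {t v : ℂ} (ht0 : t ≠ 0) (ht1 : 1 - t ≠ 0) (hv : v ^ m = t ^ c * (1 - t) ^ d) :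
    Wf m c d (m - u) t v * Wf m c d u t v = t * (1 - t) := by
  unfold Wf
  have e1 := ediv_add hm hu hc
  have e2 := ediv_add hm hu hd
  rw [div_mul_div_comm, ← pow_add, Nat.sub_add_cancel hu.le, hv]
  rw [div_eq_iff (mul_ne_zero (mul_ne_zero (pow_ne_zero _ ht0) (pow_ne_zero _ ht1))
    (mul_ne_zero (pow_ne_zero _ ht0) (pow_ne_zero _ ht1)))]
  conv_lhs => rw [← e1, ← e2]
  ring

theorem lr_cast : ∀ (τ : Tr) (b : τ.L → ℕ) (ν : τ.N),
    (τ.lr (fun l => (b l : ℤ)) ν).1 = ((τ.lr b ν).1 : ℤ) ∧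
      (τ.lr (fun l => (b l : ℤ)) ν).2 = ((τ.lr b ν).2 : ℤ)
  | .lf, _, ν => Empty.elim ν
  | .nd l r, b, none => by
    refine ⟨?_, ?_⟩
    · change ∑ j, ((b (Sum.inl j) : ℕ) : ℤ) = ((∑ j, b (Sum.inl j) : ℕ) : ℤ)
      push_cast
      rfl
    · change ∑ j, ((b (Sum.inr j) : ℕ) : ℤ) = ((∑ j, b (Sum.inr j) : ℕ) : ℤ)
      push_cast
      rfl
  | .nd l r, b, some (Sum.inl ν) => lr_cast l (fun j => b (Sum.inl j)) ν
  | .nd l r, b, some (Sum.inr ν) => lr_cast r (fun j => b (Sum.inr j)) ν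

theorem ysg_nat {k : ℕ} (m : ℕ) (s : Fin k → ℂ) (b : Fin k → ℕ) (u : ℕ) (x y : ℂ) :
    ysg m s (fun j => (b j : ℤ)) (u : ℤ) x y = y ^ u / ∏ j, (x - s j) ^ (u * b j / m) := by
  unfold ysg
  rw [zpow_natCast, div_eq_mul_inv, ← Finset.prod_inv_distrib]
  congr 1
  refine Finset.prod_congr rfl fun j _ => ?_
  have : ((u : ℤ) * (b j : ℤ) / (m : ℤ)) = ((u * b j / m : ℕ) : ℤ) := by push_cast; rfl
  rw [zpow_neg, this, zpow_natCast]

theorem vsg_nat (m c d u : ℕ) (t v : ℂ) : vsg m c d (u : ℤ) t v = Wf m c d u t v := by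
  unfold vsg Wf
  have h1 : ((u : ℤ) * (c : ℤ) / (m : ℤ)) = ((u * c / m : ℕ) : ℤ) := by push_cast; rfl
  have h2 : ((u : ℤ) * (d : ℤ) / (m : ℤ)) = ((u * d / m : ℕ) : ℤ) := by push_cast; rfl
  rw [zpow_natCast, h1, h2, zpow_neg, zpow_neg, zpow_natCast, zpow_natCast, div_eq_mul_inv,
    mul_inv]

theorem fA_eq {r : ℕ} (m : ℕ) (s : Fin (r + 1) → ℂ) (b : Fin (r + 1) → ℕ) (u i : ℕ) (x y : ℂ) :
    fA m s b u i x y =
      x ^ i * (y ^ u / ∏ j, (x - s j) ^ (u * b j / m)) / ∏ j, (x - s j) := by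
  unfold fA
  have h : ∏ j, (x - s j) ^ (1 + u * b j / m) =
      (∏ j, (x - s j)) * ∏ j, (x - s j) ^ (u * b j / m) := by
    rw [← Finset.prod_mul_distrib]
    exact Finset.prod_congr rfl fun j _ => by rw [pow_add, pow_one]
  rw [h, ← mul_div_assoc, div_div, mul_comm (∏ j, (x - s j))]

theorem fA_sub {r : ℕ} {m : ℕ} (hm : 0 < m) {s : Fin (r + 1) → ℂ} {b : Fin (r + 1) → ℕ} {u : ℕ}
    (hu : u < m) (hb : ∀ j, ¬ m ∣ u * b j) (i : ℕ) {x y : ℂ} (hx : ∀ j, x ≠ s j)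
    (hy : y ≠ 0) (h : y ^ m = ∏ j, (x - s j) ^ b j) :
    fA m s b (m - u) i x y = x ^ i / (y ^ u / ∏ j, (x - s j) ^ (u * b j / m)) := by
  have hne : ∀ j, x - s j ≠ 0 := fun j => sub_ne_zero.2 (hx j)
  have hp1 : ∏ j, (x - s j) ^ (u * b j / m) ≠ 0 :=
    Finset.prod_ne_zero_iff.2 fun j _ => pow_ne_zero _ (hne j)
  have hp2 : ∏ j, (x - s j) ^ (1 + (m - u) * b j / m) ≠ 0 :=
    Finset.prod_ne_zero_iff.2 fun j _ => pow_ne_zero _ (hne j)
  have h3 : y ^ (m - u) * y ^ u =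
      (∏ j, (x - s j) ^ (1 + (m - u) * b j / m)) * ∏ j, (x - s j) ^ (u * b j / m) := by
    rw [← pow_add, Nat.sub_add_cancel hu.le, h, ← Finset.prod_mul_distrib]
    refine Finset.prod_congr rfl fun j _ => ?_
    rw [← pow_add]
    congr 1
    have := ediv_add hm hu (hb j)
    omega
  unfold fA
  rw [div_div_eq_mul_div, div_eq_div_iff hp2 (pow_ne_zero _ hy)]
  linear_combination (x ^ i) * h3

/-- the case of the standard numbering of the columns -/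
theorem val0 (hG : S_G) (hG2 : S_G2) (m p q : ℕ) (s : Fin (p + q + 1) → ℂ)
    (b : Fin (p + q + 1) → ℕ) (hc : HC.SE.IsCov m s b) (τ : Tr) (eL : Fin (p + q + 1) ≃ τ.L)
    (hg : Gt m τ eL b) (κ : ℂ) (hκ : κ ≠ 0) (u : ℕ) (hu : u < m) (hcop : u.Coprime m)
    (e : Fin p ⊕ Fin q ≃ τ.N) (hP : ∀ i, isP m τ eL b u (e (Sum.inl i)))
    (hQ : ∀ i, ¬ isP m τ eL b u (e (Sum.inr i))) :
    ∃ C : ℂ, C ≠ 0 ∧ ∀ x ∈ gD τ eL s, ∀ y v, Shs m τ eL s b κ x y v →
      (Matrix.of fun k a => H1 m τ eL s b e u x y v k (fs a)).det =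
        C * (Matrix.of fun k a => H2 m τ eL s b e u x y v k (fs a)).det := by
  obtain ⟨C0, hC0, hC⟩ := hG p q τ eL e s hc.2.1
  have hm : 0 < m := by have := hc.1; omega
  have hub : ∀ j, ¬ m ∣ u * b j := fun j => not_dvd hcop (hc.2.2.1 j)
  set κ' : ℂ := κ ^ (u : ℤ) * ∏ j, ((-1) ^ (p + q) * Fd s j) ^ (-((u : ℤ) * (b j : ℤ) / (m : ℤ)))
    with hκ'
  have hκ'0 : κ' ≠ 0 := by
    refine mul_ne_zero (zpow_ne_zero _ hκ) (Finset.prod_ne_zero_iff.2 fun j _ => zpow_ne_zero _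
      (mul_ne_zero (pow_ne_zero _ (by norm_num)) (Fd_ne hc.2.1 j)))
  refine ⟨C0 * κ', mul_ne_zero hC0 hκ'0, fun x hx y v hs => ?_⟩
  obtain ⟨hinj, hxs, hok⟩ := hx
  obtain ⟨hy, hv, hyv⟩ := hs
  have hy0 : ∀ a, y a ≠ 0 := fun a h0 => by
    have := hy a
    rw [h0, zero_pow hm.ne'] at this
    exact Finset.prod_ne_zero_iff.2 (fun j _ => pow_ne_zero _ (sub_ne_zero.2 (hxs a j))) this.symm
  have hW : ∀ ν, τ.wt (uL τ eL s x) ν ≠ 0 := fun ν => (hok.2.2 ν).2.2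
  have ht0 : ∀ ν, tN τ eL s x ν ≠ 0 := fun ν => div_ne_zero (hok.2.2 ν).1 (hW ν)
  have ht1 : ∀ ν, 1 - tN τ eL s x ν ≠ 0 := fun ν => by
    have h1 : 1 - tN τ eL s x ν = (τ.lr (uL τ eL s x) ν).2 / τ.wt (uL τ eL s x) ν := by
      rw [tN, Tr.tt, eq_div_iff (hW ν), sub_mul, div_mul_cancel₀ _ (hW ν), Tr.wt]
      ring
    rw [h1]
    exact div_ne_zero (hok.2.2 ν).2.1 (hW ν)
  have hv0 : ∀ ν, v ν ≠ 0 := fun ν h0 => by
    have := hv ν
    rw [h0, zero_pow hm.ne'] at this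
    exact mul_ne_zero (pow_ne_zero _ (ht0 ν)) (pow_ne_zero _ (ht1 ν)) this.symm
  -- the values y_u and v_u
  set Y : Fin (p + q) → ℂ := fun a => y a ^ u / ∏ j, (x a - s j) ^ (u * b j / m) with hY
  set W : τ.N → ℂ := fun ν => Wf m (cL τ eL b ν) (cR τ eL b ν) u (tN τ eL s x ν) (v ν) with hWf
  have hY0 : ∀ a, Y a ≠ 0 := fun a => div_ne_zero (pow_ne_zero _ (hy0 a))
    (Finset.prod_ne_zero_iff.2 fun j _ => pow_ne_zero _ (sub_ne_zero.2 (hxs a j)))
  have hW0 : ∀ ν, W ν ≠ 0 := fun ν => Wf_ne hm (ht0 ν) (ht1 ν) (hv ν)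
  have key := hC x ⟨hinj, hxs, hok⟩ (fun a => Y (fs a)) (fun k => W (e k))
    (fun a => hY0 _) (fun k => hW0 _)
  -- the relation
  have rel := hG2 (p + q) m τ eL s (fun j => (b j : ℤ)) (u : ℤ) hm hc.2.1 x hxs hok y v κ hy0 hv0
    hκ hyv
  have hcast := lr_cast τ (fun l => b (eL.symm l))
  have rel1 : ∏ a, Y a = κ' * (∏ ν, W ν) * ∏ i : Fin q, τ.wt (uL τ eL s x) (e (Sum.inr i)) := by
    have h1 : ∏ a, Y a = ∏ a, ysg m s (fun j => (b j : ℤ)) (u : ℤ) (x a) (y a) :=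
      Finset.prod_congr rfl fun a _ => (ysg_nat m s b u (x a) (y a)).symm
    rw [h1, rel, hκ']
    have h2 : ∀ ν, vsg m (τ.lr (fun l => ((b (eL.symm l) : ℕ) : ℤ)) ν).1
        (τ.lr (fun l => ((b (eL.symm l) : ℕ) : ℤ)) ν).2 (u : ℤ)
        (τ.tt (fun l => ux s x (eL.symm l)) ν) (v ν) = W ν := fun ν => by
      rw [(hcast ν).1, (hcast ν).2, vsg_nat]
      rfl
    have h3 : (∏ ν, if (m : ℤ) ≤ (u : ℤ) * (τ.lr (fun l => ((b (eL.symm l) : ℕ) : ℤ)) ν).1 % m +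
        (u : ℤ) * (τ.lr (fun l => ((b (eL.symm l) : ℕ) : ℤ)) ν).2 % m then
        τ.wt (fun l => ux s x (eL.symm l)) ν else 1) =
        ∏ i : Fin q, τ.wt (uL τ eL s x) (e (Sum.inr i)) := by
      rw [← Equiv.prod_comp e, Fintype.prod_sum_type]
      have h4 : ∀ ν, ((m : ℤ) ≤ (u : ℤ) * (τ.lr (fun l => ((b (eL.symm l) : ℕ) : ℤ)) ν).1 % m +
          (u : ℤ) * (τ.lr (fun l => ((b (eL.symm l) : ℕ) : ℤ)) ν).2 % m) ↔
          ¬ isP m τ eL b u ν := fun ν => by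
        rw [(hcast ν).1, (hcast ν).2, isP, not_lt]
        have : ((u : ℤ) * ((τ.lr (fun l => b (eL.symm l)) ν).1 : ℤ) % (m : ℤ) +
          (u : ℤ) * ((τ.lr (fun l => b (eL.symm l)) ν).2 : ℤ) % (m : ℤ)) =
          ((u * cL τ eL b ν % m + u * cR τ eL b ν % m : ℕ) : ℤ) := by
          push_cast
          rfl
        rw [this, Nat.cast_le]
      rw [Finset.prod_eq_one (s := (univ : Finset (Fin p))), one_mul]
      · exact Finset.prod_congr rfl fun i _ => if_pos ((h4 _).2 (hQ i))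
      · exact fun i _ => if_neg fun h => (h4 _).1 h (hP i)
    rw [h3]
    congr 2
    exact Finset.prod_congr rfl fun ν _ => h2 ν
  have hm1 : (M1 (fun a => x (fs a)) (fun a => Y (fs a)) (fun a => ∏ j, (x (fs a) - s j))
      (fun k => W (e k)) (JJ τ eL e s x)) =
      Matrix.of fun k a => H1 m τ eL s b e u x y v k (fs a) := by
    ext k a
    rcases k with i | i
    · change x (fs a) ^ i.1 * Y (fs a) / (∏ j, (x (fs a) - s j)) = fA m s b u i.1 (x (fs a)) (y (fs a))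
      rw [fA_eq]
    · change JJ τ eL e s x (Sum.inr i) a / W (e (Sum.inr i)) =
        fN m τ eL s b (m - u) x (e (Sum.inr i)) (v (e (Sum.inr i))) *
          jN τ eL s x (e (Sum.inr i)) (fs a)
      have h5 := Wf_mul hm hu (not_dvd hcop (hg (e (Sum.inr i))).1)
        (not_dvd hcop (hg (e (Sum.inr i))).2.1) (ht0 _) (ht1 _) (hv (e (Sum.inr i)))
      have h6 : fN m τ eL s b (m - u) x (e (Sum.inr i)) (v (e (Sum.inr i))) =
          1 / W (e (Sum.inr i)) := by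
        unfold fN
        rw [div_eq_div_iff (mul_ne_zero (ht0 _) (ht1 _)) (hW0 _), h5, one_mul]
      rw [h6]
      change JJ τ eL e s x (Sum.inr i) a / W (e (Sum.inr i)) =
        1 / W (e (Sum.inr i)) * JJ τ eL e s x (Sum.inr i) a
      rw [one_div, div_eq_mul_inv, mul_comm]
  have hm2 : (M2 (fun a => x (fs a)) (fun a => Y (fs a)) (fun k => W (e k)) (gg τ eL e s x)
      (JJ τ eL e s x)) = Matrix.of fun k a => H2 m τ eL s b e u x y v k (fs a) := by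
    ext k a
    rcases k with i | i
    · change W (e (Sum.inl i)) * (1 / (tN τ eL s x (e (Sum.inl i)) *
          (1 - tN τ eL s x (e (Sum.inl i))))) * JJ τ eL e s x (Sum.inl i) a =
        fN m τ eL s b u x (e (Sum.inl i)) (v (e (Sum.inl i))) * JJ τ eL e s x (Sum.inl i) a
      unfold fN
      rw [mul_one_div]
    · change x (fs a) ^ i.1 / Y (fs a) = fA m s b (m - u) i.1 (x (fs a)) (y (fs a))
      rw [fA_sub hm hu hub i.1 (hxs (fs a)) (hy0 _) (hy _)]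
  rw [hm1, hm2] at key
  have hprod : ∏ a : Fin p ⊕ Fin q, Y (fs a) = ∏ a, Y a := Equiv.prod_comp finSumFinEquiv Y
  have hprod2 : ∏ k : Fin p ⊕ Fin q, W (e k) = ∏ ν, W ν := Equiv.prod_comp e W
  rw [hprod, hprod2, rel1] at key
  have hne1 : ∏ ν, W ν ≠ 0 := Finset.prod_ne_zero_iff.2 fun ν _ => hW0 ν
  have hne2 : ∏ i : Fin q, τ.wt (uL τ eL s x) (e (Sum.inr i)) ≠ 0 :=
    Finset.prod_ne_zero_iff.2 fun i _ => hW _
  have hne := mul_ne_zero hne1 hne2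
  apply mul_right_cancel₀ hne
  change (Matrix.of fun k a => H1 m τ eL s b e u x y v k (fs a)).det * (∏ ν, W ν) *
    (∏ i : Fin q, τ.wt (uL τ eL s x) (e (Sum.inr i))) = _ at key
  linear_combination key

end VALAux

open VALAux in
theorem gVAL (hG : S_G) (hG2 : S_G2) : S_VAL := by
  intro m r s b hc τ eL hg κ hκ u hu hcop p q e ec hP hQ
  have hr : r = p + q := by
    have := Fintype.card_congr ec
    rw [Fintype.card_sum, Fintype.card_fin, Fintype.card_fin, Fintype.card_fin] at this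
    exact this.symm
  subst hr
  obtain ⟨C, hC0, hC⟩ := val0 hG hG2 m p q s b hc τ eL hg κ hκ u hu hcop e hP hQ
  refine ⟨C, hC0, fun x hx y v hs => ?_⟩
  have h := hC x hx y v hs
  set σ : Equiv.Perm (Fin p ⊕ Fin q) := ec.trans finSumFinEquiv.symm with hσ
  have h1 : ∀ H : Fin p ⊕ Fin q → Fin (p + q) → ℂ,
      (Matrix.of fun k a => H k (ec a)).det =
        (Equiv.Perm.sign σ : ℤ) * (Matrix.of fun (k a : Fin p ⊕ Fin q) => H k (fs a)).det := by
    intro H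
    rw [← Matrix.det_permute']
    congr 1
    ext k a
    simp [hσ, Matrix.submatrix_apply]
  rw [h1 (H1 m τ eL s b e u x y v), h1 (H2 m τ eL s b e u x y v), h]
  ring

end SE
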